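import Pool.Agent.W674.LVR.Rect

/-! # Comparison of masses for two metrics which agree locally almost everywhere -/

set_option autoImplicit false

open MeasureTheory Set Filter Topology
open scoped ENNReal NNReal

namespace Pool.Agent.W674.LVR

theorem le_of_cover {E : Type} [MeasurableSpace E] {μ ν : Measure E} {V : ℕ → Set E}
    (hV : ∀ n, MeasurableSet (V n))
    (h : ∀ n (A : Set E), MeasurableSet A → A ⊆ V n → μ A ≤ ν A)
    (h0 : μ (⋃ n, V n)ᶜ = 0) : μ ≤ ν := by
  refine Measure.le_iff.2 fun A hA => ?_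
  have hd : ∀ n, MeasurableSet (disjointed V n) := MeasurableSet.disjointed hV
  have hAd : ∀ n, MeasurableSet (A ∩ disjointed V n) := fun n => hA.inter (hd n)
  have hdis : Pairwise (Function.onFun Disjoint fun n => A ∩ disjointed V n) := by
    intro m n hmn
    exact (disjoint_disjointed V hmn).mono inter_subset_right inter_subset_right
  have e : A ∩ ⋃ n, V n = ⋃ n, A ∩ disjointed V n := by
    rw [← inter_iUnion, iUnion_disjointed]
  calc μ A ≤ μ (A ∩ ⋃ n, V n) + μ (⋃ n, V n)ᶜ := by
        refine (measure_mono ?_).trans (measure_union_le _ _)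
        intro x hx
        by_cases hx' : x ∈ ⋃ n, V n
        · exact Or.inl ⟨hx, hx'⟩
        · exact Or.inr hx'
    _ = ∑' n, μ (A ∩ disjointed V n) := by rw [h0, add_zero, e, measure_iUnion hdis hAd]
    _ ≤ ∑' n, ν (A ∩ disjointed V n) := by
        refine ENNReal.tsum_le_tsum fun n => h n _ (hAd n) ?_
        exact inter_subset_right.trans (disjointed_subset V n)
    _ = ν (⋃ n, A ∩ disjointed V n) := (measure_iUnion hdis hAd).symm
    _ ≤ ν A := measure_mono (iUnion_subset fun n => inter_subset_left)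

section

variable {X Y : Type} [MetricSpace X] [MeasurableSpace X] [BorelSpace X]
  [MetricSpace Y] [MeasurableSpace Y] [BorelSpace Y] {PX : R2 → X} {PY : R2 → Y}

/-- the two metrics agree near `P u₀` for almost all `u₀` -/
def LocIso (PX : R2 → X) (PY : R2 → Y) (N : Set R2) : Prop :=
  ∀ u₀, u₀ ∉ N → ∃ r : ℝ, 0 < r ∧ ∀ u ∈ Metric.ball u₀ r, ∀ v ∈ Metric.ball u₀ r,
    dist (PX u) (PX v) = dist (PY u) (PY v)

theorem sig_comp (hX : TP PX) (hY : TP PY) {j : Y → X} (hj : ∀ u, j (PY u) = PX u) {N : Set R2}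
    (hN : volume (sq ∩ N) = 0) (hloc : LocIso PX PY N) {ν : Measure Y}
    (hν : Controls (cur PY) ν) (π : Fin 2 → X → ℝ) (K : Fin 2 → ℝ≥0)
    (hπ : ∀ i, LipschitzWith (K i) (π i)) :
    sig PY (J (π 0 ∘ PX) (π 1 ∘ PX)) ≤ (K 0 * K 1) • ν := by
  obtain ⟨hfin, hν⟩ := hν
  have hcomp := hY.compactSpace
  obtain ⟨LX, hLX⟩ := hX.lip
  obtain ⟨LY, hLY⟩ := hY.lip
  -- the open sets
  choose r hr hiso using hloc
  set V : {u : R2 // u ∉ N} → Set Y := fun u => PY '' Metric.ball u.1 (r u.1 u.2) with hV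
  have hVo : ∀ u, IsOpen (V u) := fun u => hY.isOpen_image Metric.isOpen_ball
  obtain ⟨T, hT, hTV⟩ := TopologicalSpace.isOpen_iUnion_countable V hVo
  -- the key local estimate
  have hloc : ∀ (w : {u : R2 // u ∉ N}) (A : Set Y), MeasurableSet A → A ⊆ V w →
      sig PY (J (π 0 ∘ PX) (π 1 ∘ PX)) A ≤ ((K 0 * K 1) • ν) A := by
    intro w A hA hAV
    have hext : ∀ i, ∃ q : Y → ℝ, LipschitzWith (K i) q ∧
        ∀ u, PY u ∈ V w → q (PY u) = π i (PX u) := by
      intro i
      have hon : LipschitzOnWith (K i) (π i ∘ j) (V w) := by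
        refine LipschitzOnWith.of_dist_le_mul ?_
        rintro _ ⟨u, hu, rfl⟩ _ ⟨v, hv, rfl⟩
        simp only [Function.comp_apply, hj]
        rw [← hiso w.1 w.2 u hu v hv]
        exact (hπ i).dist_le_mul _ _
      obtain ⟨q, hq, hqe⟩ := hon.extend_real
      refine ⟨q, hq, fun u hu => ?_⟩
      rw [← hqe hu]
      simp only [Function.comp_apply, hj]
    choose q hq hqe using hext
    have hpre : IsOpen (PY ⁻¹' V w) := (hVo w).preimage hY.continuous
    have hJ : ∀ u, PY u ∈ V w → J (π 0 ∘ PX) (π 1 ∘ PX) u = J (q 0 ∘ PY) (q 1 ∘ PY) u := by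
      intro u hu
      have hev : ∀ i, (π i ∘ PX) =ᶠ[𝓝 u] (q i ∘ PY) := by
        intro i
        filter_upwards [hpre.mem_nhds hu] with v hv
        exact (hqe i v hv).symm
      unfold J pd
      rw [(hev 0).fderiv_eq, (hev 1).fderiv_eq]
    have hsig : sig PY (J (q 0 ∘ PY) (q 1 ∘ PY)) ≤ (K 0 * K 1) • ν := by
      refine sig_le hY.continuous hY.injOn (measurable_J _ _)
        (J_bound ((hq 0).comp hLY) ((hq 1).comp hLY)) ?_
      intro f hf
      have := hν f q K hf hq
      rw [Fin.prod_univ_two] at this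
      rw [integral_smul_nnreal_measure, NNReal.smul_def, smul_eq_mul]
      push_cast
      exact this
    calc sig PY (J (π 0 ∘ PX) (π 1 ∘ PX)) A = sig PY (J (q 0 ∘ PY) (q 1 ∘ PY)) A := by
          rw [sig_apply hY.continuous hA, sig_apply hY.continuous hA]
          refine setLIntegral_congr_fun (measurableSet_sq.inter (hY.continuous.measurable hA)) ?_
          rintro u ⟨-, hu⟩
          simp only
          rw [hJ u (hAV hu)]
      _ ≤ _ := hsig A
  have hnull : sig PY (J (π 0 ∘ PX) (π 1 ∘ PX)) (⋃ u, V u)ᶜ = 0 := by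
    rw [sig_apply hY.continuous (isOpen_iUnion hVo).measurableSet.compl]
    refine setLIntegral_measure_zero _ _ ?_
    refine measure_mono_null ?_ hN
    rintro u ⟨hu, hu'⟩
    refine ⟨hu, ?_⟩
    by_contra hN'
    apply hu'
    rw [mem_iUnion]
    exact ⟨⟨u, hN'⟩, u, Metric.mem_ball_self (hr u hN'), rfl⟩
  rcases T.eq_empty_or_nonempty with hT0 | hTne
  · have : (⋃ u, V u) = ∅ := by
      rw [← hTV, hT0]
      simp
    rw [this, compl_empty] at hnull
    refine Measure.le_iff.2 fun A _ => ?_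
    rw [measure_mono_null (subset_univ A) hnull]
    exact bot_le
  · obtain ⟨e, he⟩ := hT.exists_eq_range hTne
    refine le_of_cover (V := fun n => V (e n)) (fun n => (hVo _).measurableSet)
      (fun n A hA hAV => hloc _ A hA hAV) ?_
    have : (⋃ n, V (e n)) = ⋃ u, V u := by
      rw [← hTV, he]
      simp
    rw [this]
    exact hnull

theorem controls_comp (hX : TP PX) (hY : TP PY) {j : Y → X} (hj : ∀ u, j (PY u) = PX u)
    (hjm : Measurable j) {N : Set R2}
    (hN : volume (sq ∩ N) = 0) (hloc : LocIso PX PY N) {ν : Measure Y}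
    (hν : Controls (cur PY) ν) : Controls (cur PX) (ν.map j) := by
  have hfin := hν.1
  refine ⟨Measure.isFiniteMeasure_map ν j, fun f π K hf hπ => ?_⟩
  obtain ⟨LX, hLX⟩ := hX.lip
  have h1 := sig_comp hX hY hj hN hloc hν π K hπ
  obtain ⟨⟨M, hM⟩, B, hB⟩ := hf
  have h2 := le_of_sig hY.continuous (measurable_J (π 0 ∘ PX) (π 1 ∘ PX))
    (J_bound ((hπ 0).comp hLX) ((hπ 1).comp hLX)) h1
    (f := f ∘ j) (hM.continuous.measurable.comp hjm) (fun y => hB (j y))
  have h3 : cur PX f π = ∫ u in sq, (f ∘ j) (PY u) * J (π 0 ∘ PX) (π 1 ∘ PX) u := by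
    unfold cur
    simp only [Function.comp_apply, hj]
  rw [h3, Fin.prod_univ_two]
  refine h2.trans (le_of_eq ?_)
  rw [integral_smul_nnreal_measure, NNReal.smul_def, smul_eq_mul,
    integral_map hjm.aemeasurable hM.continuous.measurable.abs.aestronglyMeasurable]
  push_cast
  rfl

theorem mass_comp (hX : TP PX) (hY : TP PY) {i : X → Y} {j : Y → X}
    (hj : ∀ u, j (PY u) = PX u) (hij : ∀ y, i (j y) = y)
    (him : Measurable i) (hjm : Measurable j) {N : Set R2}
    (hN : volume (sq ∩ N) = 0) (hloc : LocIso PX PY N) :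
    mass (cur PX) ≤ mass (cur PY) := by
  have h1 : (massMeasure (cur PX)).map i ≤ massMeasure (cur PY) := by
    refine le_sInf ?_
    intro ν hν
    have h2 : massMeasure (cur PX) ≤ ν.map j := sInf_le (controls_comp hX hY hj hjm hN hloc hν)
    have h3 := Measure.map_mono h2 him
    rw [Measure.map_map him hjm] at h3
    have : i ∘ j = id := funext hij
    rw [this, Measure.map_id] at h3
    exact h3
  have h4 := h1 univ
  rw [Measure.map_apply him MeasurableSet.univ, preimage_univ] at h4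
  exact h4

end

end Pool.Agent.W674.LVR
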