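import Mathlib

/-!
# Metric currents, integral current spaces, and Lipschitz-volume rigidity: definitions

Metric currents are those of Ambrosio and Kirchheim. A functional `T` of dimension `n` on a metric
space `E` is a real function of `(f, π₁, …, πₙ)`; only its values for `f` bounded Lipschitz and
`πᵢ` Lipschitz matter.
-/

set_option autoImplicit false

open MeasureTheory Set Filter Topology
open scoped ENNReal NNReal

namespace Pool.Agent.W674.LVR

/-- bounded Lipschitz real functions -/
def BLip {E : Type} [PseudoMetricSpace E] (f : E → ℝ) : Prop :=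
  (∃ K : ℝ≥0, LipschitzWith K f) ∧ ∃ C : ℝ, ∀ x, |f x| ≤ C

/-- Lipschitz real functions -/
def Lip {E : Type} [PseudoMetricSpace E] (f : E → ℝ) : Prop := ∃ K : ℝ≥0, LipschitzWith K f

/-- functionals of dimension `n` on `E` (only the values on bounded Lipschitz `f` and Lipschitz `π`
matter) -/
abbrev Fnl (n : ℕ) (E : Type) : Type := (E → ℝ) → (Fin n → E → ℝ) → ℝ

/-- the two functionals agree (on bounded Lipschitz `f` and Lipschitz `π`) -/
def Same {n : ℕ} {E : Type} [PseudoMetricSpace E] (T S : Fnl n E) : Prop :=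
  ∀ (f : E → ℝ) (π : Fin n → E → ℝ), BLip f → (∀ i, Lip (π i)) → T f π = S f π

/-- the finite Borel measure `ν` controls `T`:
`|T(f, π)| ≤ ∏ Lip(πᵢ) ∫ |f| dν` for all `(f, π)` -/
def Controls {n : ℕ} {E : Type} [PseudoMetricSpace E] [MeasurableSpace E] (T : Fnl n E)
    (ν : Measure E) : Prop :=
  IsFiniteMeasure ν ∧ ∀ (f : E → ℝ) (π : Fin n → E → ℝ) (K : Fin n → ℝ≥0), BLip f →
    (∀ i, LipschitzWith (K i) (π i)) → |T f π| ≤ (∏ i, (K i : ℝ)) * ∫ x, |f x| ∂ν

/-- metric currents of Ambrosio and Kirchheim: multilinear, continuous, local, of finite mass -/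
structure IsCurrent {n : ℕ} {E : Type} [PseudoMetricSpace E] [MeasurableSpace E]
    (T : Fnl n E) : Prop where
  add_left : ∀ f g π, BLip f → BLip g → (∀ i, Lip (π i)) → T (f + g) π = T f π + T g π
  smul_left : ∀ (c : ℝ) f π, BLip f → (∀ i, Lip (π i)) → T (c • f) π = c * T f π
  add_right : ∀ f π i a b, BLip f → (∀ i, Lip (π i)) → Lip a → Lip b →
    T f (Function.update π i (a + b)) = T f (Function.update π i a) + T f (Function.update π i b)
  smul_right : ∀ (c : ℝ) f π i a, BLip f → (∀ i, Lip (π i)) → Lip a →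
    T f (Function.update π i (c • a)) = c * T f (Function.update π i a)
  continuity : ∀ f π (ρ : ℕ → Fin n → E → ℝ) (C : ℝ≥0), BLip f → (∀ i, Lip (π i)) →
    (∀ k i, LipschitzWith C (ρ k i)) →
    (∀ i x, Tendsto (fun k => ρ k i x) atTop (𝓝 (π i x))) →
    Tendsto (fun k => T f (ρ k)) atTop (𝓝 (T f π))
  locality : ∀ f π i, BLip f → (∀ i, Lip (π i)) →
    (∃ U : Set E, IsOpen U ∧ {x | f x ≠ 0} ⊆ U ∧ ∃ c, ∀ x ∈ U, π i x = c) → T f π = 0
  finite_mass : ∃ ν, Controls T ν

/-- the mass measure `‖T‖`: the least of the finite Borel measures which control `T` -/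
noncomputable def massMeasure {n : ℕ} {E : Type} [PseudoMetricSpace E] [MeasurableSpace E]
    (T : Fnl n E) : Measure E := sInf {ν | Controls T ν}

/-- the mass `M(T) = ‖T‖(E)` -/
noncomputable def mass {n : ℕ} {E : Type} [PseudoMetricSpace E] [MeasurableSpace E]
    (T : Fnl n E) : ℝ≥0∞ := massMeasure T univ

/-- the boundary `∂T(f, π₁, …, πₙ) = T(1, f, π₁, …, πₙ)` -/
def boundary {n : ℕ} {E : Type} (T : Fnl (n + 1) E) : Fnl n E :=
  fun f π => T (fun _ => 1) (Fin.cons f π)

/-- the push-forward `φ_# T (f, π) = T (f ∘ φ, π ∘ φ)` -/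
def push {n : ℕ} {E F : Type} (φ : E → F) (T : Fnl n E) : Fnl n F :=
  fun f π => T (f ∘ φ) (fun i => π i ∘ φ)

/-- the Jacobian determinant of `g = (g₁, …, gₙ)` at `u` (derivatives within `A`) -/
noncomputable def jacW {n : ℕ} (A : Set (Fin n → ℝ)) (g : Fin n → (Fin n → ℝ) → ℝ)
    (u : Fin n → ℝ) : ℝ :=
  (Matrix.of fun i j => fderivWithin ℝ (g i) A u (Pi.single j 1)).det

/-- the Jacobian determinant of `g = (g₁, …, gₙ)` at `u` -/
noncomputable def jac {n : ℕ} (g : Fin n → (Fin n → ℝ) → ℝ) (u : Fin n → ℝ) : ℝ :=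
  (Matrix.of fun i j => fderiv ℝ (g i) u (Pi.single j 1)).det

/-- `φ` is bi-Lipschitz on `A` -/
def BiLipOn {X E : Type} [PseudoMetricSpace X] [PseudoMetricSpace E] (φ : X → E) (A : Set X) :
    Prop :=
  ∃ K : ℝ≥0, ∀ u ∈ A, ∀ v ∈ A, dist (φ u) (φ v) ≤ K * dist u v ∧ dist u v ≤ K * dist (φ u) (φ v)

/-- integer rectifiable currents: countable sums of `φᵢ_# [θᵢ]` with `φᵢ : Aᵢ → E` bi-Lipschitz,
`Aᵢ ⊂ ℝⁿ` bounded Borel, the images pairwise disjoint and `θᵢ` integrable, integer valued -/
def IsIntegerRectifiable {n : ℕ} {E : Type} [PseudoMetricSpace E] (T : Fnl n E) : Prop :=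
  ∃ (ι : Type) (_ : Countable ι) (A : ι → Set (Fin n → ℝ)) (φ : ι → (Fin n → ℝ) → E)
    (θ : ι → (Fin n → ℝ) → ℤ),
    (∀ i, MeasurableSet (A i) ∧ Bornology.IsBounded (A i)) ∧ (∀ i, BiLipOn (φ i) (A i)) ∧
    (Pairwise fun i j => Disjoint (φ i '' A i) (φ j '' A j)) ∧
    (∀ i, IntegrableOn (fun u => (θ i u : ℝ)) (A i)) ∧
    ∀ (f : E → ℝ) (π : Fin n → E → ℝ), BLip f → (∀ j, Lip (π j)) →
      HasSum (fun i => ∫ u in A i, (θ i u : ℝ) * f (φ i u) * jacW (A i) (fun j => π j ∘ φ i) u)
        (T f π)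

/-- integral currents: integer rectifiable metric currents whose boundary has finite mass -/
structure IsIntegral {n : ℕ} {E : Type} [PseudoMetricSpace E] [MeasurableSpace E]
    (T : Fnl (n + 1) E) : Prop where
  current : IsCurrent T
  rectifiable : IsIntegerRectifiable T
  boundary_finite : ∃ ν, Controls (boundary T) ν

/-- the lower density `liminf_{r → 0} ‖T‖(B(x, r)) / rⁿ` -/
noncomputable def lowerDensity {n : ℕ} {E : Type} [PseudoMetricSpace E] [MeasurableSpace E]
    (T : Fnl n E) (x : E) : ℝ≥0∞ :=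
  liminf (fun r : ℝ => massMeasure T (Metric.closedBall x r) / ENNReal.ofReal (r ^ n)) (𝓝[>] 0)

/-- `(X, d, T)` is an integral current space (with `X` complete): `T` is an integral current on `X`
and every point of `X` is a point of positive lower density of `‖T‖` -/
structure IsIntegralCurrentSpace {n : ℕ} (X : Type) [MetricSpace X] [MeasurableSpace X]
    (T : Fnl (n + 1) X) : Prop where
  complete : CompleteSpace X
  integral : IsIntegral T
  density : ∀ x : X, 0 < lowerDensity T x

/-- `γ` restricted to `[a, b]` is a curve in `Y` from `p` to `q` -/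
structure IsCurve {V : Type} [PseudoMetricSpace V] (Y : Set V) (γ : ℝ → V) (a b : ℝ) (p q : V) :
    Prop where
  le : a ≤ b
  cont : ContinuousOn γ (Icc a b)
  mem : ∀ t ∈ Icc a b, γ t ∈ Y
  left : γ a = p
  right : γ b = q

/-- the intrinsic distance of `Y`: the infimum of the lengths of the curves in `Y` from `p` to
`q` -/
noncomputable def intrinsicEDist {V : Type} [PseudoMetricSpace V] (Y : Set V) (p q : V) : ℝ≥0∞ :=
  ⨅ (γ : ℝ → V) (a : ℝ) (b : ℝ) (_ : IsCurve Y γ a b p q), eVariationOn γ (Icc a b)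

/-- `Y` is (a copy of) a compact connected oriented `n`-dimensional Lipschitz manifold without
boundary in `ℝᴺ`, with its intrinsic metric: `emb` is the inclusion of the set in `ℝᴺ`, and the
`φ i` are bi-Lipschitz charts (for the Euclidean metric) defined on open subsets of `ℝⁿ`, onto
relatively open subsets covering `Y`, whose transition maps have a.e. positive Jacobian
determinant. -/
structure ClosedLipschitzSubmanifold (n N : ℕ) (Y : Type) [MetricSpace Y] where
  /-- the inclusion in Euclidean space -/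
  emb : Y → EuclideanSpace ℝ (Fin N)
  emb_inj : Function.Injective emb
  edist_eq : ∀ p q, edist p q = intrinsicEDist (range emb) (emb p) (emb q)
  isCompact : IsCompact (range emb)
  isConnected : IsConnected (range emb)
  /-- the index set of the atlas -/
  ι : Type
  /-- the domains of the charts -/
  U : ι → Set (Fin n → ℝ)
  /-- the charts -/
  φ : ι → (Fin n → ℝ) → Y
  isOpen_dom : ∀ i, IsOpen (U i)
  biLip : ∀ i, BiLipOn (fun u => emb (φ i u)) (U i)
  isOpen_image : ∀ i, ∃ O : Set (EuclideanSpace ℝ (Fin N)), IsOpen O ∧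
    (fun u => emb (φ i u)) '' U i = range emb ∩ O
  cover : ∀ y, ∃ i, y ∈ φ i '' U i
  oriented : ∀ i j, ∀ᵐ u ∂(volume : Measure (Fin n → ℝ)), u ∈ U i → φ i u ∈ φ j '' U j →
    0 < jac (fun k v => Function.invFunOn (φ j) (U j) (φ i v) k) u

/-- `T` is the multiplicity-one current of integration over the oriented manifold `Y`: a metric
current which in every chart of the oriented atlas is integration over the chart domain -/
def IsFundamental {n N : ℕ} {Y : Type} [MetricSpace Y] [MeasurableSpace Y]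
    (M : ClosedLipschitzSubmanifold n N Y) (T : Fnl n Y) : Prop :=
  IsCurrent T ∧ ∀ (i : M.ι) (f : Y → ℝ) (π : Fin n → Y → ℝ), BLip f → (∀ k, Lip (π k)) →
    closure {y | f y ≠ 0} ⊆ M.φ i '' M.U i →
      T f π = ∫ u in M.U i, f (M.φ i u) * jac (fun k => π k ∘ M.φ i) u

/-- Lipschitz-volume rigidity of `Y` among integral current spaces -/
def IsRigid {n N : ℕ} {Y : Type} [MetricSpace Y] [MeasurableSpace Y]
    (M : ClosedLipschitzSubmanifold (n + 1) N Y) : Prop :=
  ∀ (TY : Fnl (n + 1) Y), IsFundamental M TY →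
    ∀ (X : Type) (_ : MetricSpace X) (_ : MeasurableSpace X) (_ : BorelSpace X)
      (TX : Fnl (n + 1) X) (f : X → Y), IsIntegralCurrentSpace X TX → LipschitzWith 1 f →
      Same (push f TX) TY → mass (boundary TX) ≤ mass (boundary TY) → mass TX ≤ mass TY →
      Isometry f

end Pool.Agent.W674.LVR
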