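import Pool.Agent.W674.LVR.Gen

/-! # The corrugated torus in `ℝ⁸` -/

set_option autoImplicit false

open MeasureTheory Set Filter Topology
open scoped ENNReal NNReal

namespace Pool.Agent.W674.LVR.Ex

/-- the tent function, supported on `[1/2, 2]` -/
noncomputable def b (t : ℝ) : ℝ := max 0 (min (2 * t - 1) (2 - t))

theorem b_nonneg (t : ℝ) : 0 ≤ b t := le_max_left _ _

theorem b_le_one (t : ℝ) : b t ≤ 1 := by
  unfold b
  refine max_le zero_le_one ?_
  rcases le_total t 1 with h | h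
  · exact (min_le_left _ _).trans (by linarith)
  · exact (min_le_right _ _).trans (by linarith)

theorem b_lip (s t : ℝ) : |b s - b t| ≤ 2 * |s - t| := by
  unfold b
  have h1 : |max 0 (min (2 * s - 1) (2 - s)) - max 0 (min (2 * t - 1) (2 - t))| ≤
      |min (2 * s - 1) (2 - s) - min (2 * t - 1) (2 - t)| := by
    have := abs_max_sub_max_le_abs (min (2 * s - 1) (2 - s)) (min (2 * t - 1) (2 - t)) 0
    rwa [max_comm _ (0 : ℝ), max_comm _ (0 : ℝ)] at this
  have h2 := abs_min_sub_min_le_max (2 * s - 1) (2 - s) (2 * t - 1) (2 - t)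
  refine h1.trans (h2.trans (max_le ?_ ?_))
  · have : 2 * s - 1 - (2 * t - 1) = 2 * (s - t) := by ring
    rw [this, abs_mul, abs_two]
  · have : 2 - s - (2 - t) = -(s - t) := by ring
    rw [this, abs_neg]
    linarith [abs_nonneg (s - t)]

theorem b_ne {t : ℝ} (h : b t ≠ 0) : 1 / 2 < t ∧ t < 2 := by
  unfold b at h
  by_contra hc
  apply h
  refine max_eq_left ?_
  by_cases h1 : 1 / 2 < t
  · have h2 : 2 ≤ t := by
      by_contra h3
      exact hc ⟨h1, not_le.1 h3⟩
    exact (min_le_right _ _).trans (by linarith)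
  · push Not at h1
    exact (min_le_left _ _).trans (by linarith)

/-- the distance to the null circles (roughly) -/
noncomputable def s (u : R2) : ℝ := |Real.sin (Real.pi * u 1)|

theorem s_nonneg (u : R2) : 0 ≤ s u := abs_nonneg _

theorem s_le_one (u : R2) : s u ≤ 1 := Real.abs_sin_le_one _

theorem s_lip (u v : R2) : |s u - s v| ≤ Real.pi * |u 1 - v 1| := by
  unfold s
  refine (abs_abs_sub_abs_le_abs_sub _ _).trans ?_
  have h2 : |Real.sin (Real.pi * u 1) - Real.sin (Real.pi * v 1)| ≤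
      |Real.pi * u 1 - Real.pi * v 1| := by
    have := Real.abs_sin_sub_sin_le (Real.pi * u 1) (Real.pi * v 1)
    exact this
  refine h2.trans (le_of_eq ?_)
  rw [← mul_sub, abs_mul, abs_of_pos Real.pi_pos]

theorem s_per : Per s := by
  intro m u
  unfold s
  have : Real.pi * (u + fun i => (m i : ℝ)) 1 = Real.pi * u 1 + (m 1 : ℝ) * Real.pi := by
    simp only [Pi.add_apply]
    ring
  rw [this, Real.sin_add_int_mul_pi]
  rw [abs_mul]
  simp

/-- the amplitude of the `k`-th helix -/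
noncomputable def amp (k : ℕ) (u : R2) : ℝ := (1 / 2 : ℝ) ^ k * b (2 ^ k * s u)

theorem amp_nonneg (k : ℕ) (u : R2) : 0 ≤ amp k u := by
  unfold amp
  exact mul_nonneg (by positivity) (b_nonneg _)

theorem half_pow_mul (k : ℕ) : (1 / 2 : ℝ) ^ k * 2 ^ k = 1 := by
  rw [← mul_pow]
  norm_num

theorem half_pow_le (k : ℕ) : (1 / 2 : ℝ) ^ k ≤ 1 := pow_le_one₀ (by norm_num) (by norm_num)

theorem amp_lip (k : ℕ) (u v : R2) : |amp k u - amp k v| ≤ 2 * (Real.pi * |u 1 - v 1|) := by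
  unfold amp
  rw [← mul_sub, abs_mul, abs_of_pos (by positivity)]
  calc (1 / 2 : ℝ) ^ k * |b (2 ^ k * s u) - b (2 ^ k * s v)|
      ≤ (1 / 2 : ℝ) ^ k * (2 * |2 ^ k * s u - 2 ^ k * s v|) := by
        gcongr
        exact b_lip _ _
    _ = ((1 / 2 : ℝ) ^ k * 2 ^ k) * (2 * |s u - s v|) := by
        rw [← mul_sub, abs_mul, abs_of_pos (by positivity : (0 : ℝ) < 2 ^ k)]
        ring
    _ ≤ _ := by
        rw [half_pow_mul, one_mul]
        gcongr
        exact s_lip u v

theorem amp_le (k : ℕ) (u : R2) : amp k u ≤ (1 / 2 : ℝ) ^ k := by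
  unfold amp
  have := b_le_one (2 ^ k * s u)
  have h2 : (0 : ℝ) ≤ (1 / 2) ^ k := by positivity
  nlinarith

theorem amp_per (k : ℕ) : Per (amp k) := by
  intro m u
  unfold amp
  rw [s_per m u]

/-- the active indices are neighbours -/
theorem amp_ne {k l : ℕ} {u : R2} (hk : amp k u ≠ 0) (hl : amp l u ≠ 0) : k ≤ l + 1 := by
  have h1 := b_ne (right_ne_zero_of_mul hk)
  have h2 := b_ne (right_ne_zero_of_mul hl)
  by_contra hc
  push Not at hc
  have h3 : (2 : ℝ) ^ (l + 2) ≤ 2 ^ k := pow_le_pow_right₀ (by norm_num) (by omega)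
  have h4 : (2 : ℝ) ^ (l + 2) = 4 * 2 ^ l := by ring
  have h5 := s_nonneg u
  have h6 : 4 * (2 ^ l * s u) ≤ 2 ^ k * s u := by
    calc 4 * (2 ^ l * s u) = 2 ^ (l + 2) * s u := by rw [h4]; ring
      _ ≤ _ := by gcongr
  linarith [h1.2, h2.1]

/-- the phases -/
noncomputable def ph (k : ℕ) (u : R2) : ℝ := 2 * Real.pi * 2 ^ k * u 0

theorem ph_per_cos (k : ℕ) : Per (fun u => Real.cos (ph k u)) := by
  intro m u
  have : ph k (u + fun i => (m i : ℝ)) = ph k u + ((2 ^ k * m 0 : ℤ) : ℝ) * (2 * Real.pi) := by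
    unfold ph
    push_cast
    simp only [Pi.add_apply]
    ring
  show Real.cos (ph k _) = _
  rw [this, Real.cos_add_int_mul_two_pi]

theorem ph_per_sin (k : ℕ) : Per (fun u => Real.sin (ph k u)) := by
  intro m u
  have : ph k (u + fun i => (m i : ℝ)) = ph k u + ((2 ^ k * m 0 : ℤ) : ℝ) * (2 * Real.pi) := by
    unfold ph
    push_cast
    simp only [Pi.add_apply]
    ring
  show Real.sin (ph k _) = _
  rw [this, Real.sin_add_int_mul_two_pi]

/-- a term of the corrugation; `T` is `cos` or `sin` -/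
noncomputable def hh (T : ℝ → ℝ) (k : ℕ) (u : R2) : ℝ := amp k u * T (ph k u)

theorem hh_lip {T : ℝ → ℝ} (hT : ∀ x y, |T x - T y| ≤ |x - y|) (hT1 : ∀ x, |T x| ≤ 1) (k : ℕ) :
    LipschitzWith 13 (hh T k) := by
  refine LipschitzWith.of_dist_le_mul fun u v => ?_
  rw [Real.dist_eq]
  unfold hh
  have e : amp k u * T (ph k u) - amp k v * T (ph k v) =
      (amp k u - amp k v) * T (ph k u) + amp k v * (T (ph k u) - T (ph k v)) := by ring
  have h1 := amp_lip k u v
  have h2 : |T (ph k u) - T (ph k v)| ≤ 2 ^ k * (2 * Real.pi * |u 0 - v 0|) := by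
    refine (hT _ _).trans (le_of_eq ?_)
    unfold ph
    rw [← mul_sub, abs_mul, abs_of_pos (by positivity)]
    ring
  have h3 : amp k v * |T (ph k u) - T (ph k v)| ≤ 2 * Real.pi * |u 0 - v 0| := by
    calc amp k v * |T (ph k u) - T (ph k v)|
        ≤ (1 / 2 : ℝ) ^ k * (2 ^ k * (2 * Real.pi * |u 0 - v 0|)) := by
          have := amp_le k v
          have := amp_nonneg k v
          gcongr
      _ = ((1 / 2 : ℝ) ^ k * 2 ^ k) * (2 * Real.pi * |u 0 - v 0|) := by ring
      _ = _ := by rw [half_pow_mul, one_mul]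
  have h4 : |u 0 - v 0| ≤ dist u v := dist_le_pi_dist u v 0
  have h5 : |u 1 - v 1| ≤ dist u v := dist_le_pi_dist u v 1
  have hpi : Real.pi < 3.15 := Real.pi_lt_d2
  have hpi0 := Real.pi_pos
  have hd : 0 ≤ dist u v := dist_nonneg
  rw [e]
  calc _ ≤ |(amp k u - amp k v) * T (ph k u)| + |amp k v * (T (ph k u) - T (ph k v))| :=
        abs_add_le _ _
    _ ≤ 2 * (Real.pi * |u 1 - v 1|) * 1 + 2 * Real.pi * |u 0 - v 0| := by
        rw [abs_mul, abs_mul, abs_of_nonneg (amp_nonneg k v)]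
        gcongr
        exact hT1 _
    _ ≤ 2 * (Real.pi * dist u v) * 1 + 2 * Real.pi * dist u v := by gcongr
    _ = 4 * Real.pi * dist u v := by ring
    _ ≤ 13 * dist u v := by
        gcongr
        linarith
    _ = _ := by norm_num

theorem lip_tsum {g : ℕ → R2 → ℝ} {L : ℝ≥0} (hg : ∀ k, LipschitzWith L (g k))
    (one : ∀ u k l, g k u ≠ 0 → g l u ≠ 0 → k = l) :
    LipschitzWith (2 * L) (fun u => ∑' k, g k u) := by
  have h : ∀ u, ∃ k, ∀ l, l ≠ k → g l u = 0 := by
    intro u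
    by_cases hu : ∃ k, g k u ≠ 0
    · obtain ⟨k, hk⟩ := hu
      refine ⟨k, fun l hl => ?_⟩
      by_contra hne
      exact hl (one u l k hne hk)
    · push Not at hu
      exact ⟨0, fun l _ => hu l⟩
  choose k hk using h
  have hs : ∀ u, ∑' k, g k u = g (k u) u := fun u => tsum_eq_single (k u) fun l hl => hk u l hl
  refine LipschitzWith.of_dist_le_mul fun u v => ?_
  rw [Real.dist_eq, hs, hs]
  have hd : 0 ≤ (L : ℝ) * dist u v := by positivity
  push_cast
  by_cases huv : k u = k v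
  · rw [huv]
    have := (hg (k v)).dist_le_mul u v
    rw [Real.dist_eq] at this
    linarith
  · have h1 : g (k u) v = 0 := hk v _ huv
    have h2 : g (k v) u = 0 := hk u _ (Ne.symm huv)
    have h3 := (hg (k u)).dist_le_mul u v
    have h4 := (hg (k v)).dist_le_mul u v
    rw [Real.dist_eq, h1, sub_zero] at h3
    rw [Real.dist_eq, h2, zero_sub, abs_neg] at h4
    have h5 : |g (k u) u - g (k v) v| ≤ |g (k u) u| + |g (k v) v| := abs_sub _ _
    linarith

/-- the corrugation with indices of parity `e` -/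
noncomputable def H (T : ℝ → ℝ) (e : ℕ) (u : R2) : ℝ := ∑' k : ℕ, hh T (2 * k + e) u

theorem H_lip {T : ℝ → ℝ} (hT : ∀ x y, |T x - T y| ≤ |x - y|) (hT1 : ∀ x, |T x| ≤ 1) (e : ℕ) :
    LipschitzWith (2 * 13) (H T e) := by
  refine lip_tsum (fun k => hh_lip hT hT1 (2 * k + e)) ?_
  intro u k l hk hl
  have h1 := amp_ne (left_ne_zero_of_mul hk) (left_ne_zero_of_mul hl)
  have h2 := amp_ne (left_ne_zero_of_mul hl) (left_ne_zero_of_mul hk)
  omega

theorem H_eq (T : ℝ → ℝ) {e m : ℕ} {u : R2} (h : amp (2 * m + e) u ≠ 0) :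
    H T e u = hh T (2 * m + e) u := by
  refine tsum_eq_single m fun l hl => ?_
  unfold hh
  by_cases h0 : amp (2 * l + e) u = 0
  · rw [h0, zero_mul]
  · exfalso
    have h1 := amp_ne h h0
    have h2 := amp_ne h0 h
    omega

theorem H_per_cos (e : ℕ) : Per (H Real.cos e) := by
  intro m u
  unfold H hh
  congr 1
  ext k
  have h := ph_per_cos (2 * k + e) m u
  simp only at h
  rw [amp_per _ m u, h]

theorem H_per_sin (e : ℕ) : Per (H Real.sin e) := by
  intro m u
  unfold H hh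
  congr 1
  ext k
  have h := ph_per_sin (2 * k + e) m u
  simp only at h
  rw [amp_per _ m u, h]

theorem H_zero (T : ℝ → ℝ) (e : ℕ) {u : R2} (hu : s u = 0) : H T e u = 0 := by
  unfold H hh amp
  have : b (2 ^ 0 * 0) = 0 := by
    unfold b
    norm_num
  simp only [hu, mul_zero] at this ⊢
  simp [this]

/-- the chord of two points on concentric circles -/
theorem chord (r r' A B : ℝ) :
    (r * Real.cos A - r' * Real.cos B) ^ 2 + (r * Real.sin A - r' * Real.sin B) ^ 2 =
      (r - r') ^ 2 + 4 * r * r' * Real.sin ((A - B) / 2) ^ 2 := by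
  have h1 : Real.cos (A - B) = 1 - 2 * Real.sin ((A - B) / 2) ^ 2 := by
    have := Real.cos_two_mul ((A - B) / 2)
    rw [show 2 * ((A - B) / 2) = A - B by ring] at this
    rw [this]
    have := Real.sin_sq_add_cos_sq ((A - B) / 2)
    linarith
  rw [Real.cos_sub] at h1
  have h2 := Real.sin_sq_add_cos_sq A
  have h3 := Real.sin_sq_add_cos_sq B
  have h4 : Real.sin ((A - B) / 2) ^ 2 =
      (1 - (Real.cos A * Real.cos B + Real.sin A * Real.sin B)) / 2 := by linarith
  rw [h4]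
  linear_combination r ^ 2 * h2 + r' ^ 2 * h3

theorem sin_lower {z : ℝ} (hz : |z| ≤ 1 / 2) : 9 / 10 * |z| ≤ |Real.sin z| := by
  have key : ∀ x : ℝ, 0 ≤ x → x ≤ 1 / 2 → 9 / 10 * x ≤ Real.sin x := by
    intro x h0 h1
    rcases h0.eq_or_lt with h | h
    · rw [← h]
      simp
    · have := Real.sin_gt_sub_cube h
      have h2 : x ^ 3 ≤ x * (1 / 4) := by
        have : x ^ 2 ≤ 1 / 4 := by nlinarith
        nlinarith
      linarith
  rcases le_total 0 z with h | h
  · rw [abs_of_nonneg h] at *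
    exact (key z h hz).trans (le_abs_self _)
  · rw [abs_of_nonpos h] at *
    have := key (-z) (by linarith) hz
    rw [Real.sin_neg] at this
    exact this.trans (neg_le_abs _)

/-- the contribution of one helix to the square of the chord -/
theorem block_lower (e m : ℕ) (u₀ u v : R2)
    (hu : dist u u₀ < 1 / (160 * 2 ^ (2 * m + e))) (hv : dist v u₀ < 1 / (160 * 2 ^ (2 * m + e))) :
    4 * (81 / 100) * (b (2 ^ (2 * m + e) * s u₀) ^ 2 - 1 / 10) *
        Real.sin (Real.pi * (u 0 - v 0)) ^ 2 ≤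
      (H Real.cos e u - H Real.cos e v) ^ 2 + (H Real.sin e u - H Real.sin e v) ^ 2 := by
  set k := 2 * m + e with hk
  set β := b (2 ^ k * s u₀) with hβ
  have hβ0 : 0 ≤ β := b_nonneg _
  have hβ1 : β ≤ 1 := b_le_one _
  have hpi := Real.pi_lt_d2
  have hpi0 := Real.pi_pos
  have h2k : (0 : ℝ) < 2 ^ k := by positivity
  by_cases hsmall : β ^ 2 ≤ 1 / 10
  · refine le_trans ?_ (by positivity : (0 : ℝ) ≤ _)
    have h1 : 0 ≤ Real.sin (Real.pi * (u 0 - v 0)) ^ 2 := sq_nonneg _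
    have h2 : 4 * (81 / 100) * (β ^ 2 - 1 / 10) ≤ 0 := by linarith
    exact mul_nonpos_of_nonpos_of_nonneg h2 h1
  push Not at hsmall
  have hβ3 : 3 / 10 < β := by nlinarith
  have hclose : ∀ w : R2, dist w u₀ < 1 / (160 * 2 ^ k) → β - 1 / 20 ≤ b (2 ^ k * s w) := by
    intro w hw
    have h1 := b_lip (2 ^ k * s u₀) (2 ^ k * s w)
    rw [← mul_sub, abs_mul, abs_of_pos h2k] at h1
    have h2 := s_lip u₀ w
    have h3 : |u₀ 1 - w 1| ≤ dist w u₀ := by
      rw [dist_comm]
      exact dist_le_pi_dist u₀ w 1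
    have h4 : 2 ^ k * dist w u₀ ≤ 1 / 160 := by
      calc 2 ^ k * dist w u₀ ≤ 2 ^ k * (1 / (160 * 2 ^ k)) := by gcongr
        _ = 1 / 160 := by field_simp
    have h5 : |b (2 ^ k * s u₀) - b (2 ^ k * s w)| ≤ 1 / 20 := by
      calc _ ≤ 2 * (2 ^ k * |s u₀ - s w|) := h1
        _ ≤ 2 * (2 ^ k * (Real.pi * dist w u₀)) := by
            gcongr
            exact h2.trans (by gcongr)
        _ = 2 * Real.pi * (2 ^ k * dist w u₀) := by ring
        _ ≤ 2 * Real.pi * (1 / 160) := by gcongr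
        _ ≤ 1 / 20 := by linarith
    have h6 := (abs_le.1 h5).2
    linarith
  have bu := hclose u hu
  have bv := hclose v hv
  have hau : amp k u ≠ 0 := by
    unfold amp
    have : 0 < b (2 ^ k * s u) := by linarith
    positivity
  have hav : amp k v ≠ 0 := by
    unfold amp
    have : 0 < b (2 ^ k * s v) := by linarith
    positivity
  rw [H_eq _ hau, H_eq _ hav, H_eq _ hau, H_eq _ hav]
  unfold hh
  rw [chord]
  have e1 : (ph k u - ph k v) / 2 = 2 ^ k * (Real.pi * (u 0 - v 0)) := by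
    unfold ph
    ring
  rw [e1]
  set δ := Real.pi * (u 0 - v 0) with hδ
  have hδs : |2 ^ k * δ| ≤ 1 / 2 := by
    have h1 : |u 0 - v 0| ≤ 2 * (1 / (160 * 2 ^ k)) := by
      have h2 : |u 0 - v 0| ≤ dist u v := dist_le_pi_dist u v 0
      have h3 := dist_triangle_right u v u₀
      linarith
    rw [abs_mul, abs_of_pos h2k, hδ, abs_mul, abs_of_pos hpi0]
    calc 2 ^ k * (Real.pi * |u 0 - v 0|) ≤ 2 ^ k * (Real.pi * (2 * (1 / (160 * 2 ^ k)))) := by
          gcongr
      _ = Real.pi / 80 := by field_simp; norm_num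
      _ ≤ 1 / 2 := by linarith
  have h1 := sin_lower hδs
  have h2 : |Real.sin δ| ≤ |δ| := Real.abs_sin_le_abs
  have h3 : 9 / 10 * (2 ^ k * |Real.sin δ|) ≤ |Real.sin (2 ^ k * δ)| := by
    refine le_trans ?_ h1
    rw [abs_mul, abs_of_pos h2k]
    gcongr
  have h4 : 81 / 100 * ((2 ^ k) ^ 2 * Real.sin δ ^ 2) ≤ Real.sin (2 ^ k * δ) ^ 2 := by
    rw [← sq_abs (Real.sin δ), ← sq_abs (Real.sin (2 ^ k * δ))]
    have h5 : 0 ≤ 9 / 10 * (2 ^ k * |Real.sin δ|) := by positivity
    nlinarith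
  have h6 : β ^ 2 - 1 / 10 ≤ b (2 ^ k * s u) * b (2 ^ k * s v) := by
    have : (β - 1 / 20) * (β - 1 / 20) ≤ b (2 ^ k * s u) * b (2 ^ k * s v) := by
      have : 0 ≤ β - 1 / 20 := by linarith
      exact mul_le_mul bu bv this (b_nonneg _)
    nlinarith
  have h7 : amp k u * amp k v * (2 ^ k) ^ 2 = b (2 ^ k * s u) * b (2 ^ k * s v) := by
    unfold amp
    calc _ = ((1 / 2 : ℝ) ^ k * 2 ^ k) ^ 2 * (b (2 ^ k * s u) * b (2 ^ k * s v)) := by ring
      _ = _ := by rw [half_pow_mul]; ring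
  have hau0 := amp_nonneg k u
  have hav0 := amp_nonneg k v
  calc 4 * (81 / 100) * (β ^ 2 - 1 / 10) * Real.sin δ ^ 2
      ≤ 4 * (81 / 100) * (b (2 ^ k * s u) * b (2 ^ k * s v)) * Real.sin δ ^ 2 := by gcongr
    _ = 4 * (amp k u * amp k v) * (81 / 100 * ((2 ^ k) ^ 2 * Real.sin δ ^ 2)) := by
        rw [← h7]
        ring
    _ ≤ 4 * (amp k u * amp k v) * Real.sin (2 ^ k * δ) ^ 2 := by gcongr
    _ ≤ (amp k u - amp k v) ^ 2 + 4 * amp k u * amp k v * Real.sin (2 ^ k * δ) ^ 2 := by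
        nlinarith [sq_nonneg (amp k u - amp k v)]

end Pool.Agent.W674.LVR.Ex
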