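import Pool.Agent.W674.LVR.Ex

/-! # The corrugated torus in `ℝ⁸`: the data of the example -/

set_option autoImplicit false

open MeasureTheory Set Filter Topology
open scoped ENNReal NNReal

namespace Pool.Agent.W674.LVR.Ex

/-- the coordinates of the map -/
noncomputable def cc (u : R2) : Fin 8 → ℝ :=
  ![Real.cos (2 * Real.pi * u 0), Real.sin (2 * Real.pi * u 0), Real.cos (2 * Real.pi * u 1),
    Real.sin (2 * Real.pi * u 1), H Real.cos 0 u, H Real.sin 0 u, H Real.cos 1 u, H Real.sin 1 u]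

/-- the map -/
noncomputable def Φ (u : R2) : EuclideanSpace ℝ (Fin 8) := WithLp.toLp 2 (cc u)

theorem dist_sq (u v : R2) : dist (Φ u) (Φ v) ^ 2 =
    (Real.cos (2 * Real.pi * u 0) - Real.cos (2 * Real.pi * v 0)) ^ 2 +
    (Real.sin (2 * Real.pi * u 0) - Real.sin (2 * Real.pi * v 0)) ^ 2 +
    (Real.cos (2 * Real.pi * u 1) - Real.cos (2 * Real.pi * v 1)) ^ 2 +
    (Real.sin (2 * Real.pi * u 1) - Real.sin (2 * Real.pi * v 1)) ^ 2 +
    (H Real.cos 0 u - H Real.cos 0 v) ^ 2 + (H Real.sin 0 u - H Real.sin 0 v) ^ 2 +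
    (H Real.cos 1 u - H Real.cos 1 v) ^ 2 + (H Real.sin 1 u - H Real.sin 1 v) ^ 2 := by
  rw [EuclideanSpace.dist_eq, Real.sq_sqrt (by positivity), Fin.sum_univ_eight]
  simp only [Real.dist_eq, sq_abs]
  rfl

theorem cos_lip (x y : ℝ) : |Real.cos x - Real.cos y| ≤ |x - y| := Real.abs_cos_sub_cos_le x y

theorem sin_lip (x y : ℝ) : |Real.sin x - Real.sin y| ≤ |x - y| := Real.abs_sin_sub_sin_le x y

theorem sq_le_of_lip {x d : ℝ} (h : |x| ≤ 26 * d) : x ^ 2 ≤ (26 * d) ^ 2 := by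
  rw [← sq_abs]
  exact pow_le_pow_left₀ (abs_nonneg _) h 2

theorem Φ_lip : LipschitzWith 100 Φ := by
  refine LipschitzWith.of_dist_le_mul fun u v => ?_
  have hd : 0 ≤ dist u v := dist_nonneg
  have h0 : |u 0 - v 0| ≤ dist u v := dist_le_pi_dist u v 0
  have h1 : |u 1 - v 1| ≤ dist u v := dist_le_pi_dist u v 1
  have hpi := Real.pi_lt_d2
  have hpi0 := Real.pi_pos
  have ht : ∀ (T : ℝ → ℝ) (i : Fin 2), (∀ x y, |T x - T y| ≤ |x - y|) →
      |T (2 * Real.pi * u i) - T (2 * Real.pi * v i)| ≤ 26 * dist u v := by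
    intro T i hT
    refine (hT _ _).trans ?_
    rw [← mul_sub, abs_mul, abs_of_pos (by positivity)]
    have h2 : |u i - v i| ≤ dist u v := dist_le_pi_dist u v i
    nlinarith [abs_nonneg (u i - v i)]
  have hH : ∀ (T : ℝ → ℝ) (e : ℕ), (∀ x y, |T x - T y| ≤ |x - y|) → (∀ x, |T x| ≤ 1) →
      |H T e u - H T e v| ≤ 26 * dist u v := by
    intro T e hT hT1
    have := (H_lip hT hT1 e).dist_le_mul u v
    rw [Real.dist_eq] at this
    refine this.trans (le_of_eq ?_)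
    push_cast
    ring
  have s1 := sq_le_of_lip (ht Real.cos 0 cos_lip)
  have s2 := sq_le_of_lip (ht Real.sin 0 sin_lip)
  have s3 := sq_le_of_lip (ht Real.cos 1 cos_lip)
  have s4 := sq_le_of_lip (ht Real.sin 1 sin_lip)
  have s5 := sq_le_of_lip (hH Real.cos 0 cos_lip Real.abs_cos_le_one)
  have s6 := sq_le_of_lip (hH Real.sin 0 sin_lip Real.abs_sin_le_one)
  have s7 := sq_le_of_lip (hH Real.cos 1 cos_lip Real.abs_cos_le_one)
  have s8 := sq_le_of_lip (hH Real.sin 1 sin_lip Real.abs_sin_le_one)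
  have h := dist_sq u v
  have hd2 : dist (Φ u) (Φ v) ^ 2 ≤ (100 * dist u v) ^ 2 := by
    rw [h]
    nlinarith [sq_nonneg (dist u v)]
  have := abs_le_of_sq_le_sq hd2 (by positivity)
  push_cast
  exact (le_abs_self _).trans this

theorem Φ_per : Per Φ := by
  intro m u
  have hc : ∀ i : Fin 2, Real.cos (2 * Real.pi * (u + fun i => (m i : ℝ)) i) =
      Real.cos (2 * Real.pi * u i) := by
    intro i
    have : 2 * Real.pi * (u + fun i => (m i : ℝ)) i =
        2 * Real.pi * u i + (m i : ℝ) * (2 * Real.pi) := by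
      simp only [Pi.add_apply]
      ring
    rw [this, Real.cos_add_int_mul_two_pi]
  have hs : ∀ i : Fin 2, Real.sin (2 * Real.pi * (u + fun i => (m i : ℝ)) i) =
      Real.sin (2 * Real.pi * u i) := by
    intro i
    have : 2 * Real.pi * (u + fun i => (m i : ℝ)) i =
        2 * Real.pi * u i + (m i : ℝ) * (2 * Real.pi) := by
      simp only [Pi.add_apply]
      ring
    rw [this, Real.sin_add_int_mul_two_pi]
  unfold Φ cc
  rw [hc, hs, hc, hs, H_per_cos 0 m u, H_per_sin 0 m u, H_per_cos 1 m u, H_per_sin 1 m u]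

theorem chord_one (x y : ℝ) : (Real.cos (2 * Real.pi * x) - Real.cos (2 * Real.pi * y)) ^ 2 +
    (Real.sin (2 * Real.pi * x) - Real.sin (2 * Real.pi * y)) ^ 2 =
      4 * Real.sin (Real.pi * (x - y)) ^ 2 := by
  have := chord 1 1 (2 * Real.pi * x) (2 * Real.pi * y)
  rw [show (2 * Real.pi * x - 2 * Real.pi * y) / 2 = Real.pi * (x - y) by ring] at this
  linarith

theorem Φ_sep (i : Fin 2) (u v : R2) : |Real.sin (Real.pi * (u i - v i))| ≤ dist (Φ u) (Φ v) := by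
  have h := dist_sq u v
  have h0 := chord_one (u 0) (v 0)
  have h1 := chord_one (u 1) (v 1)
  refine abs_le_of_sq_le_sq' ?_ dist_nonneg |> abs_le.2
  have n1 := sq_nonneg (H Real.cos 0 u - H Real.cos 0 v)
  have n2 := sq_nonneg (H Real.sin 0 u - H Real.sin 0 v)
  have n3 := sq_nonneg (H Real.cos 1 u - H Real.cos 1 v)
  have n4 := sq_nonneg (H Real.sin 1 u - H Real.sin 1 v)
  have m0 := sq_nonneg (Real.sin (Real.pi * (u 0 - v 0)))
  have m1 := sq_nonneg (Real.sin (Real.pi * (u 1 - v 1)))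
  rw [h]
  fin_cases i
  · show Real.sin (Real.pi * (u 0 - v 0)) ^ 2 ≤ _
    linarith
  · show Real.sin (Real.pi * (u 1 - v 1)) ^ 2 ≤ _
    linarith

theorem b_sum {t : ℝ} (h1 : 1 / 2 < t) (h2 : t ≤ 1) : 1 / 2 ≤ b t ^ 2 + b (2 * t) ^ 2 := by
  have e1 : b t = 2 * t - 1 := by
    unfold b
    rw [min_eq_left (by linarith), max_eq_right (by linarith)]
  have e2 : b (2 * t) = 2 - 2 * t := by
    unfold b
    rw [min_eq_right (by linarith), max_eq_right (by linarith)]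
  rw [e1, e2]
  nlinarith [sq_nonneg (2 * t - 3 / 2)]

theorem Φ_loc (u₀ : R2) (hs : s u₀ ≠ 0) : ∃ r : ℝ, 0 < r ∧
    ∀ u ∈ Metric.ball u₀ r, ∀ v ∈ Metric.ball u₀ r,
      ((11 / 10 : ℝ≥0) : ℝ) * |(Φ u) 1 - (Φ v) 1| ≤ dist (Φ u) (Φ v) := by
  have hs0 : 0 < s u₀ := lt_of_le_of_ne (s_nonneg _) (Ne.symm hs)
  have hs1 := s_le_one u₀
  obtain ⟨k, hk1, hk2⟩ := exists_nat_pow_near (x := 1 / s u₀) (y := (2 : ℝ))
    ((one_le_div hs0).2 hs1) one_lt_two
  rw [le_div_iff₀ hs0] at hk1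
  rw [div_lt_iff₀ hs0] at hk2
  set t := 2 ^ k * s u₀ with ht
  have ht2 : (2 : ℝ) ^ (k + 1) * s u₀ = 2 * t := by
    rw [ht, pow_succ]
    ring
  have ht1 : 1 / 2 < t := by
    rw [ht2] at hk2
    linarith
  have hb := b_sum ht1 hk1
  have h2k : (0 : ℝ) < 2 ^ k := by positivity
  refine ⟨1 / (160 * 2 ^ (k + 1)), by positivity, fun u hu v hv => ?_⟩
  rw [Metric.mem_ball] at hu hv
  have hr : (1 : ℝ) / (160 * 2 ^ (k + 1)) ≤ 1 / (160 * 2 ^ k) := by
    apply one_div_le_one_div_of_le (by positivity)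
    have : (2 : ℝ) ^ k ≤ 2 ^ (k + 1) := pow_le_pow_right₀ (by norm_num) (by omega)
    linarith
  have hu' := hu.trans_le hr
  have hv' := hv.trans_le hr
  set S := Real.sin (Real.pi * (u 0 - v 0)) ^ 2 with hS
  have hS0 : 0 ≤ S := sq_nonneg _
  -- the corrugations
  have hB : 4 * (81 / 100) * (3 / 10) * S ≤
      (H Real.cos 0 u - H Real.cos 0 v) ^ 2 + (H Real.sin 0 u - H Real.sin 0 v) ^ 2 +
      ((H Real.cos 1 u - H Real.cos 1 v) ^ 2 + (H Real.sin 1 u - H Real.sin 1 v) ^ 2) := by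
    obtain ⟨m, hm⟩ := Nat.even_or_odd' k
    rcases hm with hm | hm
    · have b0 := block_lower 0 m u₀ u v (by rw [add_zero, ← hm]; exact hu')
        (by rw [add_zero, ← hm]; exact hv')
      have b1 := block_lower 1 m u₀ u v (by rw [← hm]; exact hu) (by rw [← hm]; exact hv)
      rw [add_zero, ← hm, ← ht, ← hS] at b0
      rw [← hm, ht2, ← hS] at b1
      nlinarith
    · have b1 := block_lower 1 m u₀ u v (by rw [← hm]; exact hu') (by rw [← hm]; exact hv')
      have hm' : 2 * (m + 1) + 0 = k + 1 := by omega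
      have b0 := block_lower 0 (m + 1) u₀ u v (by rw [hm']; exact hu) (by rw [hm']; exact hv)
      rw [hm', ht2, ← hS] at b0
      rw [← hm, ← ht, ← hS] at b1
      nlinarith
  have h := dist_sq u v
  have h0 := chord_one (u 0) (v 0)
  have h1 := chord_one (u 1) (v 1)
  have m1 := sq_nonneg (Real.sin (Real.pi * (u 1 - v 1)))
  have hF : ((Φ u) 1 - (Φ v) 1) ^ 2 ≤ 4 * S := by
    have e : (Φ u) 1 - (Φ v) 1 =
        Real.sin (2 * Real.pi * u 0) - Real.sin (2 * Real.pi * v 0) := rfl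
    rw [e]
    have := sq_nonneg (Real.cos (2 * Real.pi * u 0) - Real.cos (2 * Real.pi * v 0))
    linarith
  have hfin : (11 / 10 * ((Φ u) 1 - (Φ v) 1)) ^ 2 ≤ dist (Φ u) (Φ v) ^ 2 := by
    rw [h]
    nlinarith
  have h3 := abs_le_of_sq_le_sq hfin dist_nonneg
  rw [abs_mul, abs_of_pos (by norm_num : (0 : ℝ) < 11 / 10)] at h3
  push_cast
  exact h3

theorem F_lip : LipschitzWith 1 (fun p : EuclideanSpace ℝ (Fin 8) => p 1) := by
  refine LipschitzWith.of_dist_le_mul fun p q => ?_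
  rw [NNReal.coe_one, one_mul, Real.dist_eq, dist_eq_norm]
  exact PiLp.norm_apply_le (p - q) 1

theorem null_set : volume (sq ∩ {u | s u = 0}) = 0 := by
  have h : sq ∩ {u : R2 | s u = 0} ⊆ {u : R2 | u 1 = 0} := by
    rintro u ⟨hu, hs⟩
    have h1 := hu 1 (mem_univ _)
    have h2 : Real.sin (Real.pi * u 1) = 0 := abs_eq_zero.1 hs
    obtain ⟨m, hm⟩ := sin_pi_int h2
    rw [mem_ofPred_eq, hm]
    rw [hm] at h1
    have h3 : (0 : ℝ) ≤ m := h1.1
    have h4 : (m : ℝ) < 1 := h1.2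
    have h5 : 0 ≤ m := by exact_mod_cast h3
    have h6 : m < 1 := by exact_mod_cast h4
    have h7 : m = 0 := by omega
    rw [h7]
    simp
  refine measure_mono_null h ?_
  rw [volume_pi]
  exact Measure.pi_hyperplane _ 1 0

/-- the two points -/
noncomputable def pt (x : ℝ) : R2 := ![x / (2 * Real.pi), 0]

theorem s_pt (x : ℝ) : s (pt x) = 0 := by
  unfold s pt
  simp

theorem two_pi_pt (x : ℝ) : 2 * Real.pi * pt x 0 = x := by
  unfold pt
  simp only [Matrix.cons_val_zero]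
  field_simp

theorem curve_lip : LipschitzWith 1 (fun x : ℝ => Φ (pt x)) := by
  refine LipschitzWith.of_dist_le_mul fun x y => ?_
  rw [NNReal.coe_one, one_mul]
  have h := dist_sq (pt x) (pt y)
  have hH : ∀ T e z, H T e (pt z) = 0 := fun T e z => H_zero T e (s_pt z)
  have h1 : ∀ z, pt z 1 = 0 := fun z => rfl
  rw [two_pi_pt, two_pi_pt, hH, hH, hH, hH, hH, hH, hH, hH, h1, h1] at h
  have h2 := chord 1 1 x y
  have h3 : |Real.sin ((x - y) / 2)| ≤ |(x - y) / 2| := Real.abs_sin_le_abs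
  have h4 : Real.sin ((x - y) / 2) ^ 2 ≤ ((x - y) / 2) ^ 2 := sq_le_sq.2 h3
  have h5 : dist (Φ (pt x)) (Φ (pt y)) ^ 2 ≤ (x - y) ^ 2 := by
    rw [h]
    nlinarith
  have h6 := sq_le_sq.1 h5
  rw [abs_of_nonneg dist_nonneg] at h6
  exact h6

theorem strict : intrinsicEDist (range Φ) (Φ (pt (1 / 2))) (Φ (pt (-(1 / 2)))) <
    ENNReal.ofReal (((11 / 10 : ℝ≥0) : ℝ) *
      |(Φ (pt (1 / 2))) 1 - (Φ (pt (-(1 / 2)))) 1|) := by
  have hc : IsCurve (range Φ) (fun x => Φ (pt x)) (-(1 / 2)) (1 / 2) (Φ (pt (-(1 / 2))))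
      (Φ (pt (1 / 2))) :=
    ⟨by norm_num, curve_lip.continuous.continuousOn, fun t _ => ⟨_, rfl⟩, rfl, rfl⟩
  have h1 := intr_le hc
  have h2 := (curve_lip.lipschitzOnWith (s := Icc (-(1 / 2)) (1 / 2))).comp_eVariationOn_le
    (g := id) (s := Icc (-(1 / 2) : ℝ) (1 / 2)) (mapsTo_id _)
  have h3 : eVariationOn (id : ℝ → ℝ) (Icc (-(1 / 2)) (1 / 2)) = 1 := by
    have := (monotone_id.monotoneOn (Icc (-(1 / 2) : ℝ) (1 / 2))).eVariationOn_eq
      (left_mem_Icc.2 (by norm_num)) (right_mem_Icc.2 (by norm_num))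
    rw [inter_self] at this
    rw [this]
    norm_num
  rw [h3, mul_one] at h2
  rw [intr_symm]
  refine (h1.trans h2).trans_lt ?_
  have e : (Φ (pt (1 / 2))) 1 - (Φ (pt (-(1 / 2)))) 1 = 2 * Real.sin (1 / 2) := by
    have e1 : ∀ x, (Φ (pt x)) 1 = Real.sin (2 * Real.pi * pt x 0) := fun x => rfl
    rw [e1, e1, two_pi_pt, two_pi_pt, Real.sin_neg]
    ring
  have hs := Real.sin_gt_sub_cube (x := 1 / 2) (by norm_num)
  rw [e, ENNReal.coe_one, ← ENNReal.ofReal_one, ENNReal.ofReal_lt_ofReal_iff_of_nonneg zero_le_one,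
    abs_of_pos (by linarith)]
  push_cast
  linarith

/-- the corrugated torus -/
noncomputable def dat : Dat 8 where
  Φ := Φ
  per := Φ_per
  L := 100
  lip := Φ_lip
  sep := Φ_sep
  F := fun p => p 1
  lipF := F_lip
  a := 11 / 10
  one_le := by
    rw [le_div_iff₀ (by norm_num)]
    norm_num
  N := {u | s u = 0}
  null := null_set
  loc := fun u₀ hu₀ => Φ_loc u₀ hu₀
  p₀ := pt (1 / 2)
  q₀ := pt (-(1 / 2))
  strict := strict

end Pool.Agent.W674.LVR.Ex
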