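import Pool.Agent.W674.LVR.Intr

/-! # A criterion for the failure of Lipschitz-volume rigidity -/

set_option autoImplicit false

open MeasureTheory Set Filter Topology
open scoped ENNReal NNReal Pointwise

namespace Pool.Agent.W674.LVR

/-- the data of the example: a Lipschitz torus in Euclidean space -/
structure Dat (m : ℕ) where
  Φ : R2 → EuclideanSpace ℝ (Fin m)
  per : Per Φ
  L : ℝ≥0
  lip : LipschitzWith L Φ
  sep : ∀ (i : Fin 2) (u v : R2), |Real.sin (Real.pi * (u i - v i))| ≤ dist (Φ u) (Φ v)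
  F : EuclideanSpace ℝ (Fin m) → ℝ
  lipF : LipschitzWith 1 F
  a : ℝ≥0
  one_le : 1 ≤ a
  N : Set R2
  null : volume (sq ∩ N) = 0
  loc : ∀ u₀, u₀ ∉ N → ∃ r : ℝ, 0 < r ∧ ∀ u ∈ Metric.ball u₀ r, ∀ v ∈ Metric.ball u₀ r,
    a * |F (Φ u) - F (Φ v)| ≤ dist (Φ u) (Φ v)
  p₀ : R2
  q₀ : R2
  strict : intrinsicEDist (range Φ) (Φ p₀) (Φ q₀) < ENNReal.ofReal (a * |F (Φ p₀) - F (Φ q₀)|)

variable {m : ℕ} (D : Dat m)

/-- the torus with its intrinsic metric -/
def YT : Type := {p : EuclideanSpace ℝ (Fin m) // p ∈ range D.Φ}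

/-- the torus with the modified metric -/
def XT : Type := {p : EuclideanSpace ℝ (Fin m) // p ∈ range D.Φ}

/-- the intrinsic distance -/
noncomputable def dY (p q : EuclideanSpace ℝ (Fin m)) : ℝ :=
  (intrinsicEDist (range D.Φ) p q).toReal

theorem intr_ne_top {p q : EuclideanSpace ℝ (Fin m)} (hp : p ∈ range D.Φ) (hq : q ∈ range D.Φ) :
    intrinsicEDist (range D.Φ) p q ≠ ∞ := by
  obtain ⟨u, rfl⟩ := hp
  obtain ⟨v, rfl⟩ := hq
  refine ne_top_of_le_ne_top ?_ (intr_range_le D.lip u v)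
  exact ENNReal.mul_ne_top ENNReal.coe_ne_top (edist_ne_top _ _)

theorem dist_le_dY {p q : EuclideanSpace ℝ (Fin m)} (hp : p ∈ range D.Φ) (hq : q ∈ range D.Φ) :
    dist p q ≤ dY D p q := by
  have h := edist_le_intr (Y := range D.Φ) p q
  rw [edist_dist] at h
  exact (ENNReal.ofReal_le_iff_le_toReal (intr_ne_top D hp hq)).1 h

theorem dY_self {p : EuclideanSpace ℝ (Fin m)} (hp : p ∈ range D.Φ) : dY D p p = 0 := by
  unfold dY
  rw [intr_self hp]
  rfl

theorem dY_comm (p q : EuclideanSpace ℝ (Fin m)) : dY D p q = dY D q p := by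
  unfold dY
  rw [intr_symm]

theorem dY_triangle {p q r : EuclideanSpace ℝ (Fin m)} (hp : p ∈ range D.Φ) (hq : q ∈ range D.Φ)
    (hr : r ∈ range D.Φ) : dY D p r ≤ dY D p q + dY D q r := by
  unfold dY
  rw [← ENNReal.toReal_add (intr_ne_top D hp hq) (intr_ne_top D hq hr)]
  exact ENNReal.toReal_mono
    (ENNReal.add_ne_top.2 ⟨intr_ne_top D hp hq, intr_ne_top D hq hr⟩) (intr_triangle p q r)

theorem dY_le (u v : R2) : dY D (D.Φ u) (D.Φ v) ≤ D.L * dist u v := by
  unfold dY
  have h := ENNReal.toReal_mono (ENNReal.mul_ne_top ENNReal.coe_ne_top (edist_ne_top _ _))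
    (intr_range_le D.lip u v)
  rwa [ENNReal.toReal_mul, ENNReal.coe_toReal, edist_dist, ENNReal.toReal_ofReal dist_nonneg] at h

noncomputable instance : MetricSpace (YT D) where
  dist p q := dY D p.1 q.1
  dist_self p := dY_self D p.2
  dist_comm p q := dY_comm D p.1 q.1
  dist_triangle p q r := dY_triangle D p.2 q.2 r.2
  eq_of_dist_eq_zero := by
    intro p q h
    refine Subtype.ext (dist_le_zero.1 ((dist_le_dY D p.2 q.2).trans (le_of_eq h)))

theorem dist_YT (p q : YT D) : dist p q = dY D p.1 q.1 := rfl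

/-- the modified distance -/
noncomputable def dX (p q : EuclideanSpace ℝ (Fin m)) : ℝ :=
  max (dY D p q) (D.a * |D.F p - D.F q|)

noncomputable instance : MetricSpace (XT D) where
  dist p q := dX D p.1 q.1
  dist_self p := by
    show dX D p.1 p.1 = 0
    unfold dX
    rw [dY_self D p.2]
    simp
  dist_comm p q := by
    show dX D p.1 q.1 = dX D q.1 p.1
    unfold dX
    rw [dY_comm, abs_sub_comm]
  dist_triangle p q r := by
    show dX D p.1 r.1 ≤ dX D p.1 q.1 + dX D q.1 r.1
    unfold dX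
    refine max_le ?_ ?_
    · exact (dY_triangle D p.2 q.2 r.2).trans (add_le_add (le_max_left _ _) (le_max_left _ _))
    · have h1 : |D.F p.1 - D.F r.1| ≤ |D.F p.1 - D.F q.1| + |D.F q.1 - D.F r.1| :=
        abs_sub_le _ _ _
      calc D.a * |D.F p.1 - D.F r.1| ≤ D.a * (|D.F p.1 - D.F q.1| + |D.F q.1 - D.F r.1|) := by
            gcongr
        _ = D.a * |D.F p.1 - D.F q.1| + D.a * |D.F q.1 - D.F r.1| := by ring
        _ ≤ _ := add_le_add (le_max_right _ _) (le_max_right _ _)
  eq_of_dist_eq_zero := by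
    intro p q h
    have h' : dX D p.1 q.1 = 0 := h
    refine Subtype.ext (dist_le_zero.1 ((dist_le_dY D p.2 q.2).trans ?_))
    rw [← h']
    exact le_max_left _ _

theorem dist_XT (p q : XT D) : dist p q = dX D p.1 q.1 := rfl

noncomputable instance : MeasurableSpace (YT D) := borel _
instance : BorelSpace (YT D) := ⟨rfl⟩
noncomputable instance : MeasurableSpace (XT D) := borel _
instance : BorelSpace (XT D) := ⟨rfl⟩

/-- the parametrisations -/
def PY (u : R2) : YT D := ⟨D.Φ u, u, rfl⟩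
def PX (u : R2) : XT D := ⟨D.Φ u, u, rfl⟩
def P0 (u : R2) : range D.Φ := ⟨D.Φ u, u, rfl⟩

def mapXY (p : XT D) : YT D := ⟨p.1, p.2⟩
def mapYX (p : YT D) : XT D := ⟨p.1, p.2⟩

theorem F_le {p q : EuclideanSpace ℝ (Fin m)} : |D.F p - D.F q| ≤ dist p q := by
  have := D.lipF.dist_le_mul p q
  rw [Real.dist_eq] at this
  simpa using this

theorem tp_Y : TP (PY D) := by
  refine ⟨?_, ⟨D.L, ?_⟩, ?_, ?_⟩
  · intro k u
    exact Subtype.ext (D.per k u)
  · exact LipschitzWith.of_dist_le_mul fun u v => dY_le D u v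
  · rintro ⟨p, u, rfl⟩
    exact ⟨u, rfl⟩
  · intro i u v
    exact (D.sep i u v).trans (dist_le_dY D ⟨u, rfl⟩ ⟨v, rfl⟩)

theorem tp_0 : TP (P0 D) := by
  refine ⟨?_, ⟨D.L, ?_⟩, ?_, ?_⟩
  · intro k u
    exact Subtype.ext (D.per k u)
  · exact LipschitzWith.of_dist_le_mul fun u v => D.lip.dist_le_mul u v
  · rintro ⟨p, u, rfl⟩
    exact ⟨u, rfl⟩
  · intro i u v
    exact D.sep i u v

theorem dX_le {p q : EuclideanSpace ℝ (Fin m)} (hp : p ∈ range D.Φ) (hq : q ∈ range D.Φ) :
    dX D p q ≤ D.a * dY D p q := by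
  have h1 := dist_le_dY D hp hq
  have h2 := F_le D (p := p) (q := q)
  have h3 : (1 : ℝ) ≤ D.a := by exact_mod_cast D.one_le
  have h4 : 0 ≤ dY D p q := ENNReal.toReal_nonneg
  refine max_le ?_ ?_
  · nlinarith
  · have := abs_nonneg (D.F p - D.F q)
    nlinarith

theorem tp_X : TP (PX D) := by
  refine ⟨?_, ⟨D.a * D.L, ?_⟩, ?_, ?_⟩
  · intro k u
    exact Subtype.ext (D.per k u)
  · refine LipschitzWith.of_dist_le_mul fun u v => ?_
    refine (dX_le D ⟨u, rfl⟩ ⟨v, rfl⟩).trans ?_
    push_cast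
    rw [mul_assoc]
    gcongr
    exact dY_le D u v
  · rintro ⟨p, u, rfl⟩
    exact ⟨u, rfl⟩
  · intro i u v
    exact ((D.sep i u v).trans (dist_le_dY D ⟨u, rfl⟩ ⟨v, rfl⟩)).trans (le_max_left _ _)

theorem lip_XY : LipschitzWith 1 (mapXY D) := by
  refine LipschitzWith.of_dist_le_mul fun p q => ?_
  rw [NNReal.coe_one, one_mul]
  exact le_max_left _ _

theorem lip_YX : LipschitzWith D.a (mapYX D) :=
  LipschitzWith.of_dist_le_mul fun p q => dX_le D p.2 q.2

theorem locIso : LocIso (PX D) (PY D) D.N := by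
  intro u₀ hu₀
  obtain ⟨r, hr, h⟩ := D.loc u₀ hu₀
  refine ⟨r, hr, fun u hu v hv => ?_⟩
  show max _ _ = _
  refine max_eq_left ?_
  exact (h u hu v hv).trans (dist_le_dY D ⟨u, rfl⟩ ⟨v, rfl⟩)

theorem mass_le : mass (cur (PX D)) ≤ mass (cur (PY D)) :=
  mass_comp (tp_X D) (tp_Y D) (i := mapXY D) (j := mapYX D) (fun _ => rfl) (fun _ => rfl)
    (lip_XY D).continuous.measurable (lip_YX D).continuous.measurable D.null (locIso D)

theorem not_isometry : ¬ Isometry (mapXY D) := by
  intro h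
  have h1 := h.dist_eq (PX D D.p₀) (PX D D.q₀)
  have h2 : dY D (D.Φ D.p₀) (D.Φ D.q₀) =
      max (dY D (D.Φ D.p₀) (D.Φ D.q₀)) (D.a * |D.F (D.Φ D.p₀) - D.F (D.Φ D.q₀)|) := h1
  have h3 : D.a * |D.F (D.Φ D.p₀) - D.F (D.Φ D.q₀)| ≤ dY D (D.Φ D.p₀) (D.Φ D.q₀) := by
    rw [h2]
    exact le_max_right _ _
  have h4 := D.strict
  rw [ENNReal.lt_ofReal_iff_toReal_lt (intr_ne_top D ⟨_, rfl⟩ ⟨_, rfl⟩)] at h4
  exact absurd h3 (not_le.2 h4)

theorem pd_per {g : R2 → ℝ} (hg : Per g) (i : Fin 2) : Per (pd i g) := by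
  intro k u
  unfold pd
  have h : (fun v => g (v + fun i => (k i : ℝ))) = g := funext fun v => hg k v
  have h2 := fderiv_comp_add_right (𝕜 := ℝ) (f := g) (x := u) (fun i => (k i : ℝ))
  rw [h] at h2
  rw [h2]

theorem J_per {G H : R2 → ℝ} (hG : Per G) (hH : Per H) : Per (J G H) := by
  intro k u
  unfold J
  rw [pd_per hG, pd_per hG, pd_per hH, pd_per hH]

/-- the inclusion in Euclidean space -/
def embY (p : YT D) : EuclideanSpace ℝ (Fin m) := p.1

theorem range_embY : range (embY D) = range D.Φ := by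
  ext p
  constructor
  · rintro ⟨q, rfl⟩
    exact q.2
  · intro hp
    exact ⟨⟨p, hp⟩, rfl⟩

theorem isCompact_range : IsCompact (range D.Φ) := by
  have h := (tp_0 D).isCompact_univ
  have h2 := h.image continuous_subtype_val
  rw [image_univ, Subtype.range_coe] at h2
  exact h2

/-- the torus as a closed oriented Lipschitz submanifold -/
noncomputable def torus : ClosedLipschitzSubmanifold 2 m (YT D) where
  emb := embY D
  emb_inj := fun p q h => Subtype.ext h
  edist_eq := by
    intro p q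
    rw [range_embY, edist_dist]
    exact ENNReal.ofReal_toReal (intr_ne_top D p.2 q.2)
  isCompact := by
    rw [range_embY]
    exact isCompact_range D
  isConnected := by
    rw [range_embY]
    exact isConnected_range D.lip.continuous
  ι := R2
  U c := Metric.ball c (1 / 4)
  φ _ := PY D
  isOpen_dom _ := Metric.isOpen_ball
  biLip c := by
    refine ⟨max D.L 1, fun u hu v hv => ⟨?_, ?_⟩⟩
    · refine (D.lip.dist_le_mul u v).trans ?_
      gcongr
      exact_mod_cast le_max_left D.L 1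
    · have h1 : dist u v < 1 / 2 := by
        have := dist_triangle_right u v c
        have h2 := Metric.mem_ball.1 hu
        have h3 := Metric.mem_ball.1 hv
        linarith
      have h2 := (tp_0 D).lower (u := u) (v := v) fun i => by
        rw [← Real.dist_eq]
        exact (dist_le_pi_dist u v i).trans h1.le
      refine h2.trans ?_
      have h3 : (1 : ℝ) ≤ (max D.L 1 : ℝ≥0) := by exact_mod_cast le_max_right D.L 1
      have h4 := dist_nonneg (x := P0 D u) (y := P0 D v)
      have h5 : dist (P0 D u) (P0 D v) = dist (embY D (PY D u)) (embY D (PY D v)) := rfl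
      rw [← h5]
      nlinarith
  isOpen_image c := by
    obtain ⟨O, hO, hO'⟩ := isOpen_induced_iff.1
      ((tp_0 D).isOpen_image (Metric.isOpen_ball (x := c) (ε := 1 / 4)))
    refine ⟨O, hO, ?_⟩
    rw [range_embY]
    ext p
    constructor
    · rintro ⟨u, hu, rfl⟩
      have h1 : P0 D u ∈ Subtype.val ⁻¹' O := by
        rw [hO']
        exact ⟨u, hu, rfl⟩
      exact ⟨⟨u, rfl⟩, h1⟩
    · rintro ⟨⟨u, rfl⟩, hp⟩
      have h1 : P0 D u ∈ Subtype.val ⁻¹' O := hp
      rw [hO'] at h1
      obtain ⟨v, hv, hvu⟩ := h1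
      exact ⟨v, hv, congrArg Subtype.val hvu⟩
  cover y := by
    obtain ⟨u, rfl⟩ := (tp_Y D).surj y
    exact ⟨u, u, Metric.mem_ball_self (by norm_num), rfl⟩
  oriented c c' := by
    refine Filter.Eventually.of_forall fun u _ hu => ?_
    obtain ⟨w, hw, hwu⟩ := hu
    have hev : ∀ᶠ v in 𝓝 u, v + (w - u) ∈ Metric.ball c' (1 / 4) := by
      have h1 : Tendsto (fun v : R2 => v + (w - u)) (𝓝 u) (𝓝 (u + (w - u))) :=
        (continuous_id.add continuous_const).tendsto u
      rw [add_sub_cancel] at h1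
      exact h1.eventually (Metric.isOpen_ball.mem_nhds hw)
    choose k hk using fun i => (tp_Y D).int_of_eq hwu i
    have hwk : w - u = fun i => (k i : ℝ) := funext hk
    have hinv : ∀ᶠ v in 𝓝 u,
        Function.invFunOn (PY D) (Metric.ball c' (1 / 4)) (PY D v) = v + (w - u) := by
      filter_upwards [hev] with v hv
      have hPv : PY D (v + (w - u)) = PY D v := by
        rw [hwk]
        exact (tp_Y D).per k v
      have hex : ∃ x ∈ Metric.ball c' (1 / 4), PY D x = PY D v := ⟨_, hv, hPv⟩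
      have h1 := Function.invFunOn_mem hex
      have h2 := Function.invFunOn_eq hex
      refine (tp_Y D).eq_of_lt (h2.trans hPv.symm) fun i => ?_
      rw [← Real.dist_eq]
      refine (dist_le_pi_dist _ _ i).trans_lt ?_
      have := dist_triangle_right (Function.invFunOn (PY D) (Metric.ball c' (1 / 4)) (PY D v))
        (v + (w - u)) c'
      have h3 := Metric.mem_ball.1 h1
      have h4 := Metric.mem_ball.1 hv
      linarith
    have hfd : ∀ k' : Fin 2, fderiv ℝ
        (fun v => Function.invFunOn (PY D) (Metric.ball c' (1 / 4)) (PY D v) k') u =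
        ContinuousLinearMap.proj (R := ℝ) (φ := fun _ : Fin 2 => ℝ) k' := by
      intro k'
      have h1 : (fun v => Function.invFunOn (PY D) (Metric.ball c' (1 / 4)) (PY D v) k') =ᶠ[𝓝 u]
          fun v => v k' + (w - u) k' := by
        filter_upwards [hinv] with v hv
        rw [hv]
        rfl
      rw [h1.fderiv_eq]
      have h2 : HasFDerivAt (fun v : R2 => v k' + (w - u) k')
          (ContinuousLinearMap.proj (R := ℝ) (φ := fun _ : Fin 2 => ℝ) k') u :=
        ((ContinuousLinearMap.proj (R := ℝ) (φ := fun _ : Fin 2 => ℝ) k').hasFDerivAt).add_const _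
      exact h2.fderiv
    rw [jac_eq]
    unfold J pd
    rw [hfd, hfd]
    simp

theorem isFundamental_cur : IsFundamental (torus D) (cur (PY D)) := by
  refine ⟨isCurrent_cur (tp_Y D), ?_⟩
  rintro (c : R2) f π hf hπ hsupp
  have hT := tp_Y D
  set w : R2 := fun i => c i - 1 / 2 with hw
  have hper : Per (fun u => f (PY D u) * J (π 0 ∘ PY D) (π 1 ∘ PY D) u) := by
    intro k u
    show f (PY D (u + _)) * J (π 0 ∘ PY D) (π 1 ∘ PY D) (u + _) = _
    rw [hT.per, J_per (hT.per_comp _) (hT.per_comp _)]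
  have h1 : cur (PY D) f π =
      ∫ u in w +ᵥ sq, f (PY D u) * J (π 0 ∘ PY D) (π 1 ∘ PY D) u :=
    (setIntegral_shift hper w).symm
  have hmem : ∀ u : R2, u ∈ w +ᵥ sq ↔ ∀ i, c i - 1 / 2 ≤ u i ∧ u i < c i + 1 / 2 := by
    intro u
    constructor
    · rintro ⟨x, hx, rfl⟩ i
      have := hx i (mem_univ _)
      have e : (fun x => w +ᵥ x) x i = c i - 1 / 2 + x i := rfl
      rw [e]
      exact ⟨by linarith [this.1], by linarith [this.2]⟩
    · intro hu
      refine ⟨fun i => u i - w i, fun i _ => ?_, ?_⟩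
      · have := hu i
        have e : w i = c i - 1 / 2 := rfl
        simp only
        rw [e]
        exact ⟨by linarith [this.1], by linarith [this.2]⟩
      · ext i
        show w i + (u i - w i) = u i
        ring
  have h2 : ∫ u in w +ᵥ sq, f (PY D u) * J (π 0 ∘ PY D) (π 1 ∘ PY D) u =
      ∫ u in Metric.ball c (1 / 4), f (PY D u) * J (π 0 ∘ PY D) (π 1 ∘ PY D) u := by
    refine setIntegral_eq_of_subset_of_forall_sdiff_eq_zero ?_ ?_ ?_
    · exact measurableSet_sq.const_vadd w
    · intro u hu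
      rw [hmem]
      intro i
      have h3 := (dist_le_pi_dist u c i).trans_lt (Metric.mem_ball.1 hu)
      rw [Real.dist_eq, abs_lt] at h3
      exact ⟨by linarith [h3.1], by linarith [h3.2]⟩
    · rintro u ⟨hu, hu'⟩
      have hf0 : f (PY D u) = 0 := by
        by_contra hne
        obtain ⟨v, hv, hvu⟩ := hsupp (subset_closure (show PY D u ∈ {y | f y ≠ 0} from hne))
        have : v = u := by
          refine hT.eq_of_lt hvu fun i => ?_
          have h3 := (dist_le_pi_dist v c i).trans_lt (Metric.mem_ball.1 hv)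
          have h4 := (hmem u).1 hu i
          rw [Real.dist_eq, abs_lt] at h3
          rw [abs_lt]
          constructor <;> linarith [h3.1, h3.2, h4.1, h4.2]
        rw [this] at hv
        exact hu' hv
      rw [hf0, zero_mul]
  rw [h1, h2]
  show _ = ∫ u in Metric.ball c (1 / 4), f (PY D u) * jac (fun k => π k ∘ PY D) u
  simp only [jac_eq]

theorem not_rigid : ¬ IsRigid (torus D) := by
  intro h
  refine not_isometry D (h (cur (PY D)) (isFundamental_cur D) (XT D) inferInstance inferInstance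
    inferInstance (cur (PX D)) (mapXY D) (isIntegralCurrentSpace_cur (tp_X D)) (lip_XY D) ?_ ?_
    (mass_le D))
  · intro f π _ _
    rfl
  · rw [mass_boundary (tp_X D)]
    exact bot_le

end Pool.Agent.W674.LVR
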