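import Pool.Agent.W674.LVR.Comp

/-! # The intrinsic metric of the range of a Lipschitz map -/

set_option autoImplicit false

open MeasureTheory Set Filter Topology
open scoped ENNReal NNReal

namespace Pool.Agent.W674.LVR

section

variable {V : Type} [PseudoMetricSpace V] {Y : Set V}

theorem intr_le {γ : ℝ → V} {a b : ℝ} {p q : V} (h : IsCurve Y γ a b p q) :
    intrinsicEDist Y p q ≤ eVariationOn γ (Icc a b) :=
  iInf_le_of_le γ (iInf_le_of_le a (iInf_le_of_le b (iInf_le_of_le h le_rfl)))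

theorem edist_le_intr (p q : V) : edist p q ≤ intrinsicEDist Y p q := by
  refine le_iInf fun γ => le_iInf fun a => le_iInf fun b => le_iInf fun h => ?_
  rw [← h.left, ← h.right]
  exact eVariationOn.edist_le γ (left_mem_Icc.2 h.le) (right_mem_Icc.2 h.le)

theorem intr_self {p : V} (hp : p ∈ Y) : intrinsicEDist Y p p = 0 := by
  have h : IsCurve Y (fun _ => p) 0 0 p p :=
    ⟨le_rfl, continuousOn_const, fun _ _ => hp, rfl, rfl⟩
  refine le_antisymm ((intr_le h).trans ?_) bot_le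
  rw [Icc_self]
  exact (eVariationOn.subsingleton _ subsingleton_singleton).le

theorem intr_symm_le (p q : V) : intrinsicEDist Y q p ≤ intrinsicEDist Y p q := by
  refine le_iInf fun γ => le_iInf fun a => le_iInf fun b => le_iInf fun h => ?_
  have hm : MapsTo (fun t : ℝ => -t) (Icc (-b) (-a)) (Icc a b) := by
    intro t ht
    exact ⟨by linarith [ht.2], by linarith [ht.1]⟩
  have h' : IsCurve Y (γ ∘ fun t : ℝ => -t) (-b) (-a) q p := by
    refine ⟨neg_le_neg h.le, h.cont.comp (by fun_prop) hm, fun t ht => h.mem _ (hm ht), ?_, ?_⟩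
    · simp [h.right]
    · simp [h.left]
  refine (intr_le h').trans ?_
  refine eVariationOn.comp_le_of_antitoneOn γ _ ?_ hm
  intro s _ t _ hst
  exact neg_le_neg hst

theorem intr_symm (p q : V) : intrinsicEDist Y p q = intrinsicEDist Y q p :=
  le_antisymm (intr_symm_le q p) (intr_symm_le p q)

theorem concat {γ₁ γ₂ : ℝ → V} {a b c d : ℝ} {p q r : V} (h₁ : IsCurve Y γ₁ a b p q)
    (h₂ : IsCurve Y γ₂ c d q r) :
    intrinsicEDist Y p r ≤ eVariationOn γ₁ (Icc a b) + eVariationOn γ₂ (Icc c d) := by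
  set γ : ℝ → V := fun t => if t ≤ b then γ₁ t else γ₂ (t - b + c) with hγ
  have hle1 := h₁.le
  have hle2 := h₂.le
  have e1 : EqOn γ γ₁ (Icc a b) := by
    intro t ht
    simp [hγ, ht.2]
  have e2 : EqOn γ (γ₂ ∘ fun t : ℝ => t - b + c) (Icc b (b + (d - c))) := by
    intro t ht
    by_cases h : t ≤ b
    · have : t = b := le_antisymm h ht.1
      simp [hγ, this, h₁.right, h₂.left]
    · simp [hγ, h]
  have hm : MapsTo (fun t : ℝ => t - b + c) (Icc b (b + (d - c))) (Icc c d) := by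
    intro t ht
    exact ⟨by linarith [ht.1], by linarith [ht.2]⟩
  have hun : Icc a (b + (d - c)) = Icc a b ∪ Icc b (b + (d - c)) :=
    (Icc_union_Icc_eq_Icc hle1 (by linarith)).symm
  have hcurve : IsCurve Y γ a (b + (d - c)) p r := by
    refine ⟨by linarith, ?_, ?_, ?_, ?_⟩
    · rw [hun]
      refine ContinuousOn.union_of_isClosed (h₁.cont.congr e1) ?_ isClosed_Icc isClosed_Icc
      exact (h₂.cont.comp (by fun_prop) hm).congr e2
    · intro t ht
      rw [hun] at ht
      rcases ht with ht | ht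
      · rw [e1 ht]
        exact h₁.mem t ht
      · rw [e2 ht]
        exact h₂.mem _ (hm ht)
    · rw [e1 (left_mem_Icc.2 hle1)]
      exact h₁.left
    · rw [e2 (right_mem_Icc.2 (by linarith))]
      simp [h₂.right]
  refine (intr_le hcurve).trans ?_
  rw [hun, eVariationOn.union γ (x := b) (isGreatest_Icc hle1) (isLeast_Icc (by linarith)),
    eVariationOn.eq_of_eqOn e1, eVariationOn.eq_of_eqOn e2]
  gcongr
  refine eVariationOn.comp_le_of_monotoneOn γ₂ _ ?_ hm
  intro s _ t _ hst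
  simpa using hst

theorem intr_triangle (p q r : V) :
    intrinsicEDist Y p r ≤ intrinsicEDist Y p q + intrinsicEDist Y q r := by
  have h : intrinsicEDist Y p q + intrinsicEDist Y q r =
      ⨅ (γ₂ : ℝ → V) (c : ℝ) (d : ℝ) (_ : IsCurve Y γ₂ c d q r) (γ₁ : ℝ → V) (a : ℝ) (b : ℝ)
        (_ : IsCurve Y γ₁ a b p q), (eVariationOn γ₁ (Icc a b) + eVariationOn γ₂ (Icc c d)) := by
    unfold intrinsicEDist
    simp only [ENNReal.iInf_add, ENNReal.add_iInf]
  rw [h]
  exact le_iInf fun γ₂ => le_iInf fun c => le_iInf fun d => le_iInf fun h₂ =>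
    le_iInf fun γ₁ => le_iInf fun a => le_iInf fun b => le_iInf fun h₁ => concat h₁ h₂

end

theorem intr_range_le {V : Type} [PseudoMetricSpace V] {Φ : R2 → V} {L : ℝ≥0}
    (hΦ : LipschitzWith L Φ) (u v : R2) :
    intrinsicEDist (range Φ) (Φ u) (Φ v) ≤ L * edist u v := by
  set ℓ : ℝ → R2 := fun t => u + t • (v - u) with hℓ
  have hlip : LipschitzWith (‖v - u‖₊) ℓ := by
    refine LipschitzWith.of_dist_le_mul fun s t => ?_
    rw [hℓ]
    simp only [dist_add_left]
    rw [dist_eq_norm, ← sub_smul, norm_smul, mul_comm, Real.dist_eq, Real.norm_eq_abs, coe_nnnorm]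
  have hc : IsCurve (range Φ) (Φ ∘ ℓ) 0 1 (Φ u) (Φ v) := by
    refine ⟨zero_le_one, (hΦ.comp hlip).continuous.continuousOn, fun t _ => ⟨ℓ t, rfl⟩, ?_, ?_⟩
    · simp [hℓ]
    · simp [hℓ]
  refine (intr_le hc).trans ?_
  have h1 := ((hΦ.comp hlip).lipschitzOnWith (s := Icc 0 1)).comp_eVariationOn_le
    (g := id) (s := Icc (0 : ℝ) 1) (mapsTo_id _)
  have h2 : eVariationOn (id : ℝ → ℝ) (Icc 0 1) ≤ 1 := by
    have := (monotone_id.monotoneOn (Icc (0 : ℝ) 1)).eVariationOn_eq (left_mem_Icc.2 zero_le_one)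
      (right_mem_Icc.2 zero_le_one)
    rw [inter_self] at this
    rw [this]
    simp
  refine h1.trans ?_
  calc ((L * ‖v - u‖₊ : ℝ≥0) : ℝ≥0∞) * eVariationOn (id : ℝ → ℝ) (Icc 0 1)
      ≤ ((L * ‖v - u‖₊ : ℝ≥0) : ℝ≥0∞) * 1 := by gcongr
    _ = L * edist u v := by
      rw [mul_one, edist_nndist, nndist_eq_nnnorm, ENNReal.coe_mul, ← nnnorm_neg, neg_sub]

end Pool.Agent.W674.LVR
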