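import Pool.Agent.W674.LVR.Per

/-! # The Jacobian of periodic Lipschitz functions: integration by parts and continuity -/

set_option autoImplicit false

open MeasureTheory Set Filter Topology
open scoped ENNReal NNReal

namespace Pool.Agent.W674.LVR

theorem measurable_J (G H : R2 → ℝ) : Measurable (J G H) :=
  ((measurable_pd 0 G).mul (measurable_pd 1 H)).sub ((measurable_pd 1 G).mul (measurable_pd 0 H))

theorem J_bound {G H : R2 → ℝ} {L M : ℝ≥0} (hG : LipschitzWith L G) (hH : LipschitzWith M H)
    (u : R2) : |J G H u| ≤ 2 * (L * M) := by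
  unfold J
  have a1 : |pd 0 G u * pd 1 H u| ≤ L * M := by
    rw [abs_mul]
    exact mul_le_mul (pd_bound hG 0 u) (pd_bound hH 1 u) (abs_nonneg _) L.2
  have a2 : |pd 1 G u * pd 0 H u| ≤ L * M := by
    rw [abs_mul]
    exact mul_le_mul (pd_bound hG 1 u) (pd_bound hH 0 u) (abs_nonneg _) L.2
  calc _ ≤ |pd 0 G u * pd 1 H u| + |pd 1 G u * pd 0 H u| := abs_sub _ _
    _ ≤ _ := by linarith

/-- bounded measurable functions are integrable on the unit square -/
theorem integrable_of_bound {g : R2 → ℝ} (hg : Measurable g) {C : ℝ} (hC : ∀ u, |g u| ≤ C) :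
    IntegrableOn g sq volume :=
  Integrable.of_bound hg.aestronglyMeasurable C (Filter.Eventually.of_forall hC)

theorem J_swap (G H : R2 → ℝ) (u : R2) : J G H u = -J H G u := by
  unfold J
  ring

theorem integral_J_zero {K H : R2 → ℝ} {L M : ℝ≥0} (hK : Per K) (hH : Per H)
    (lK : LipschitzWith L K) (lH : LipschitzWith M H) : ∫ u in sq, J K H u = 0 := by
  unfold J
  have h : ∀ i j : Fin 2, IntegrableOn (fun u => pd i K u * pd j H u) sq volume := by
    intro i j
    refine integrable_of_bound ((measurable_pd i K).mul (measurable_pd j H)) (C := L * M) ?_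
    intro u
    rw [abs_mul]
    exact mul_le_mul (pd_bound lK i u) (pd_bound lH j u) (abs_nonneg _) L.2
  rw [integral_sub (h 0 1) (h 1 0), integral_pd hK hH lK lH, sub_self]

theorem lipschitz_mul {F G : R2 → ℝ} {L M A B : ℝ≥0} (lF : LipschitzWith L F)
    (lG : LipschitzWith M G) (bF : ∀ u, |F u| ≤ A) (bG : ∀ u, |G u| ≤ B) :
    LipschitzWith (A * M + B * L) (fun u => F u * G u) := by
  refine LipschitzWith.of_dist_le_mul fun u v => ?_
  have h1 := lF.dist_le_mul u v
  have h2 := lG.dist_le_mul u v
  rw [Real.dist_eq] at *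
  have : F u * G u - F v * G v = F u * (G u - G v) + G v * (F u - F v) := by ring
  rw [this]
  calc _ ≤ |F u| * |G u - G v| + |G v| * |F u - F v| := by
        rw [← abs_mul, ← abs_mul]
        exact abs_add_le _ _
    _ ≤ A * (M * dist u v) + B * (L * dist u v) := by
        gcongr
        · exact bF u
        · exact bG v
    _ = _ := by push_cast; ring

theorem pd_mul {F G : R2 → ℝ} {u : R2} (hF : DifferentiableAt ℝ F u)
    (hG : DifferentiableAt ℝ G u) (i : Fin 2) :
    pd i (fun v => F v * G v) u = F u * pd i G u + G u * pd i F u := by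
  unfold pd
  rw [fderiv_fun_mul hF hG]
  simp

theorem pd_add {F G : R2 → ℝ} {u : R2} (hF : DifferentiableAt ℝ F u)
    (hG : DifferentiableAt ℝ G u) (i : Fin 2) :
    pd i (fun v => F v + G v) u = pd i F u + pd i G u := by
  unfold pd
  rw [fderiv_fun_add hF hG]
  simp

theorem pd_sub {F G : R2 → ℝ} {u : R2} (hF : DifferentiableAt ℝ F u)
    (hG : DifferentiableAt ℝ G u) (i : Fin 2) :
    pd i (fun v => F v - G v) u = pd i F u - pd i G u := by
  unfold pd
  rw [fderiv_fun_sub hF hG]
  simp

theorem pd_smul {F : R2 → ℝ} {u : R2} (hF : DifferentiableAt ℝ F u) (c : ℝ) (i : Fin 2) :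
    pd i (fun v => c * F v) u = c * pd i F u := by
  unfold pd
  rw [fderiv_const_mul hF]
  simp

/-- Lipschitz functions are differentiable almost everywhere on the square -/
theorem ae_diff {F : R2 → ℝ} {L : ℝ≥0} (hF : LipschitzWith L F) :
    ∀ᵐ u ∂((volume : Measure R2).restrict sq), DifferentiableAt ℝ F u :=
  ae_restrict_of_ae hF.ae_differentiableAt

theorem ibp {F G H : R2 → ℝ} {L M N A B : ℝ≥0} (pF : Per F) (pG : Per G) (pH : Per H)
    (lF : LipschitzWith L F) (lG : LipschitzWith M G) (lH : LipschitzWith N H)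
    (bF : ∀ u, |F u| ≤ A) (bG : ∀ u, |G u| ≤ B) :
    ∫ u in sq, F u * J G H u = -∫ u in sq, G u * J F H u := by
  have pK : Per (fun u => F u * G u) := fun m u => by
    show F _ * G _ = _
    rw [pF, pG]
  have h0 := integral_J_zero pK pH (lipschitz_mul lF lG bF bG) lH
  have h1 : ∫ u in sq, J (fun u => F u * G u) H u =
      ∫ u in sq, (F u * J G H u + G u * J F H u) := by
    refine integral_congr_ae ?_
    filter_upwards [ae_diff lF, ae_diff lG] with u hu hu'
    unfold J
    rw [pd_mul hu hu', pd_mul hu hu']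
    ring
  have i1 : IntegrableOn (fun u => F u * J G H u) sq volume := by
    refine integrable_of_bound (lF.continuous.measurable.mul (measurable_J G H))
      (C := A * (2 * (M * N))) ?_
    intro u
    rw [abs_mul]
    exact mul_le_mul (bF u) (J_bound lG lH u) (abs_nonneg _) A.2
  have i2 : IntegrableOn (fun u => G u * J F H u) sq volume := by
    refine integrable_of_bound (lG.continuous.measurable.mul (measurable_J F H))
      (C := B * (2 * (L * N))) ?_
    intro u
    rw [abs_mul]
    exact mul_le_mul (bG u) (J_bound lF lH u) (abs_nonneg _) B.2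
  rw [h1, integral_add i1 i2] at h0
  linarith

/-- a periodic Lipschitz function is bounded -/
theorem bounded_of_per {G : R2 → ℝ} {L : ℝ≥0} (pG : Per G) (lG : LipschitzWith L G) (u : R2) :
    |G u| ≤ ((|G 0|).toNNReal + L : ℝ≥0) := by
  have h1 : G u = G (fun i => Int.fract (u i)) := by
    rw [← pG (fun i => ⌊u i⌋) (fun i => Int.fract (u i))]
    congr 1
    ext i
    simp [Int.fract_add_floor]
  have h2 := lG.dist_le_mul (fun i => Int.fract (u i)) 0
  have h3 : dist (fun i => Int.fract (u i)) (0 : R2) ≤ 1 := by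
    rw [dist_pi_le_iff zero_le_one]
    intro i
    rw [Real.dist_eq, Pi.zero_apply, sub_zero, abs_of_nonneg (Int.fract_nonneg _)]
    exact (Int.fract_lt_one _).le
  rw [Real.dist_eq] at h2
  rw [h1]
  push_cast
  rw [Real.coe_toNNReal _ (abs_nonneg _)]
  have h4 : |G fun i => Int.fract (u i)| ≤ |G 0| + |(G fun i => Int.fract (u i)) - G 0| := by
    have := abs_add_le (G 0) ((G fun i => Int.fract (u i)) - G 0)
    simpa using this
  have h5 : (L : ℝ) * dist (fun i => Int.fract (u i)) (0 : R2) ≤ L * 1 :=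
    mul_le_mul_of_nonneg_left h3 L.2
  linarith

/-- the functional tends to `0` when one of the functions does -/
theorem tendsto_zero {F : R2 → ℝ} {L C : ℝ≥0} {G : ℕ → R2 → ℝ} {H : ℕ → R2 → ℝ}
    {A : ℝ≥0} (pF : Per F) (lF : LipschitzWith L F) (bF : ∀ u, |F u| ≤ A)
    (pG : ∀ n, Per (G n)) (lG : ∀ n, LipschitzWith C (G n))
    (pH : ∀ n, Per (H n)) (lH : ∀ n, LipschitzWith C (H n))
    (hG : ∀ u, Tendsto (fun n => G n u) atTop (𝓝 0)) :
    Tendsto (fun n => ∫ u in sq, F u * J (G n) (H n) u) atTop (𝓝 0) := by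
  have h1 : ∀ n, ∫ u in sq, F u * J (G n) (H n) u = -∫ u in sq, G n u * J F (H n) u := fun n =>
    ibp pF (pG n) (pH n) lF (lG n) (lH n) bF (bounded_of_per (pG n) (lG n))
  simp_rw [h1]
  rw [← neg_zero]
  refine Tendsto.neg ?_
  obtain ⟨B, hB⟩ : ∃ B : ℝ, ∀ n, |G n 0| ≤ B := by
    have := (hG 0).abs.bddAbove_range
    obtain ⟨B, hB⟩ := this
    exact ⟨B, fun n => hB ⟨n, rfl⟩⟩
  have h2 : Tendsto (fun n => ∫ u in sq, G n u * J F (H n) u) atTop
      (𝓝 (∫ u in sq, (0 : ℝ))) := by
    refine tendsto_integral_of_dominated_convergence (fun _ => (B + C) * (2 * (L * C))) ?_ ?_ ?_ ?_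
    · intro n
      exact ((lG n).continuous.measurable.mul (measurable_J F (H n))).aestronglyMeasurable
    · exact integrable_const _
    · intro n
      refine Filter.Eventually.of_forall fun u => ?_
      rw [Real.norm_eq_abs, abs_mul]
      have := bounded_of_per (pG n) (lG n) u
      push_cast at this
      rw [Real.coe_toNNReal _ (abs_nonneg _)] at this
      have hB0 : 0 ≤ B := (abs_nonneg _).trans (hB 0)
      refine mul_le_mul (this.trans ?_) (J_bound lF (lH n) u) (abs_nonneg _) ?_
      · linarith [hB n]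
      · positivity
    · refine Filter.Eventually.of_forall fun u => ?_
      refine squeeze_zero_norm (a := fun n => |G n u| * (2 * (L * C))) ?_ ?_
      · intro n
        rw [Real.norm_eq_abs, abs_mul]
        exact mul_le_mul_of_nonneg_left (J_bound lF (lH n) u) (abs_nonneg _)
      · have := ((hG u).abs).mul_const (2 * ((L : ℝ) * C))
        simpa using this
  simpa using h2

/-- continuity of the current -/
theorem tendsto_J {F G H : R2 → ℝ} {L C A : ℝ≥0} {Gs Hs : ℕ → R2 → ℝ}
    (pF : Per F) (lF : LipschitzWith L F) (bF : ∀ u, |F u| ≤ A)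
    (pG : Per G) (lG : LipschitzWith C G) (pH : Per H) (lH : LipschitzWith C H)
    (pGs : ∀ n, Per (Gs n)) (lGs : ∀ n, LipschitzWith C (Gs n))
    (pHs : ∀ n, Per (Hs n)) (lHs : ∀ n, LipschitzWith C (Hs n))
    (hG : ∀ u, Tendsto (fun n => Gs n u) atTop (𝓝 (G u)))
    (hH : ∀ u, Tendsto (fun n => Hs n u) atTop (𝓝 (H u))) :
    Tendsto (fun n => ∫ u in sq, F u * J (Gs n) (Hs n) u) atTop
      (𝓝 (∫ u in sq, F u * J G H u)) := by
  have z1 : Tendsto (fun n => ∫ u in sq, F u * J (fun v => Gs n v - G v) (Hs n) u) atTop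
      (𝓝 0) := by
    refine tendsto_zero (C := C + C) pF lF bF ?_ ?_ pHs ?_ ?_
    · intro n m u
      show Gs n _ - G _ = _
      rw [pGs, pG]
    · intro n
      exact (lGs n).sub lG
    · intro n
      exact (lHs n).weaken (by simp)
    · intro u
      have := (hG u).sub_const (G u)
      simpa using this
  have z2 : Tendsto (fun n => ∫ u in sq, F u * J (fun v => Hs n v - H v) G u) atTop (𝓝 0) := by
    refine tendsto_zero (C := C + C) (H := fun _ => G) pF lF bF ?_ ?_ (fun _ => pG) ?_ ?_
    · intro n m u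
      show Hs n _ - H _ = _
      rw [pHs, pH]
    · intro n
      exact (lHs n).sub lH
    · intro n
      exact lG.weaken (by simp)
    · intro u
      have := (hH u).sub_const (H u)
      simpa using this
  have int : ∀ {P Q : R2 → ℝ} {M N : ℝ≥0}, LipschitzWith M P → LipschitzWith N Q →
      IntegrableOn (fun u => F u * J P Q u) sq volume := by
    intro P Q M N hP hQ
    refine integrable_of_bound (lF.continuous.measurable.mul (measurable_J P Q))
      (C := A * (2 * (M * N))) ?_
    intro u
    rw [abs_mul]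
    exact mul_le_mul (bF u) (J_bound hP hQ u) (abs_nonneg _) A.2
  have heq : ∀ n, ∫ u in sq, F u * J (Gs n) (Hs n) u =
      (∫ u in sq, F u * J (fun v => Gs n v - G v) (Hs n) u) -
      (∫ u in sq, F u * J (fun v => Hs n v - H v) G u) + ∫ u in sq, F u * J G H u := by
    intro n
    have i1 := int ((lGs n).sub lG) (lHs n)
    have i2 := int ((lHs n).sub lH) lG
    have i3 := int lG lH
    have s1 := integral_sub i1 i2
    have s2 := integral_add (i1.sub i2) i3
    simp only [Pi.sub_apply] at s2
    rw [s1] at s2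
    rw [← s2]
    refine integral_congr_ae ?_
    filter_upwards [ae_diff (lGs n), ae_diff lG, ae_diff (lHs n), ae_diff lH] with u d1 d2 d3 d4
    show _ = F u * J (fun v => Gs n v - G v) (Hs n) u - F u * J (fun v => Hs n v - H v) G u +
      F u * J G H u
    unfold J
    rw [pd_sub d1 d2, pd_sub d1 d2, pd_sub d3 d4, pd_sub d3 d4]
    ring
  simp_rw [heq]
  have := (z1.sub z2).add_const (∫ u in sq, F u * J G H u)
  simpa using this

end Pool.Agent.W674.LVR
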