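import Pool.Agent.W674.LVR.Jac

/-! # Controlling measures of functionals with a density -/

set_option autoImplicit false

open MeasureTheory Set Filter Topology
open scoped ENNReal NNReal

namespace Pool.Agent.W674.LVR

variable {E : Type} [MetricSpace E] [MeasurableSpace E] [BorelSpace E]

/-- the image under `P` of the measure `|g| du` on the unit square -/
noncomputable def sig (P : R2 → E) (g : R2 → ℝ) : Measure E :=
  (((volume : Measure R2).restrict sq).withDensity (fun u => ENNReal.ofReal |g u|)).map P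

theorem sig_apply {P : R2 → E} (hP : Continuous P) {g : R2 → ℝ} {A : Set E}
    (hA : MeasurableSet A) :
    sig P g A = ∫⁻ u in sq ∩ P ⁻¹' A, ENNReal.ofReal |g u| := by
  unfold sig
  rw [Measure.map_apply hP.measurable hA, withDensity_apply _ (hP.measurable hA),
    Measure.restrict_restrict (hP.measurable hA), inter_comm]

theorem sig_apply' {P : R2 → E} (hP : Continuous P) {g : R2 → ℝ} (hg : Measurable g) {C : ℝ}
    (hC : ∀ u, |g u| ≤ C) {A : Set E} (hA : MeasurableSet A) :
    sig P g A = ENNReal.ofReal (∫ u in sq ∩ P ⁻¹' A, |g u|) := by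
  rw [sig_apply hP hA, ofReal_integral_eq_lintegral_ofReal]
  · exact ((integrable_of_bound hg hC).mono_set inter_subset_left).abs
  · exact Filter.Eventually.of_forall fun u => abs_nonneg _

theorem sig_finite {P : R2 → E} (hP : Continuous P) {g : R2 → ℝ} (hg : Measurable g) {C : ℝ}
    (hC : ∀ u, |g u| ≤ C) : IsFiniteMeasure (sig P g) :=
  ⟨by rw [sig_apply' hP hg hC MeasurableSet.univ]; exact ENNReal.ofReal_lt_top⟩

theorem le_of_sig {P : R2 → E} (hP : Continuous P) {g : R2 → ℝ} (hg : Measurable g) {C : ℝ}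
    (hC : ∀ u, |g u| ≤ C) {ν : Measure E} [IsFiniteMeasure ν] (h : sig P g ≤ ν)
    {f : E → ℝ} (hf : Measurable f) {B : ℝ} (hB : ∀ x, |f x| ≤ B) :
    |∫ u in sq, f (P u) * g u| ≤ ∫ x, |f x| ∂ν := by
  have hfP : Measurable (fun u => f (P u)) := hf.comp hP.measurable
  have i1 : IntegrableOn (fun u => |f (P u) * g u|) sq volume := by
    refine (integrable_of_bound (hfP.mul hg) (C := B * C) ?_).abs
    intro u
    rw [Pi.mul_apply, abs_mul]
    exact mul_le_mul (hB _) (hC u) (abs_nonneg _) ((abs_nonneg _).trans (hB (P u)))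
  refine abs_integral_le_integral_abs.trans ?_
  have hi : Integrable (fun x => |f x|) ν :=
    Integrable.of_bound hf.abs.aestronglyMeasurable B
      (Filter.Eventually.of_forall fun x => by rw [Real.norm_eq_abs, abs_abs]; exact hB x)
  rw [← ENNReal.ofReal_le_ofReal_iff (integral_nonneg fun x => abs_nonneg _),
    ofReal_integral_eq_lintegral_ofReal i1 (Filter.Eventually.of_forall fun _ => abs_nonneg _),
    ofReal_integral_eq_lintegral_ofReal hi (Filter.Eventually.of_forall fun _ => abs_nonneg _)]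
  have h1 : ∫⁻ u in sq, ENNReal.ofReal |f (P u) * g u| =
      ∫⁻ x, ENNReal.ofReal |f x| ∂(sig P g) := by
    unfold sig
    rw [lintegral_map (by fun_prop) hP.measurable,
      lintegral_withDensity_eq_lintegral_mul _ (by fun_prop) (by fun_prop)]
    refine lintegral_congr fun u => ?_
    rw [Pi.mul_apply, abs_mul, ENNReal.ofReal_mul (abs_nonneg _), mul_comm]
  rw [h1]
  exact lintegral_mono' h le_rfl

/-- the values on closed sets -/
theorem closed_le {P : R2 → E} (hP : Continuous P) {g : R2 → ℝ} (hg : Measurable g) {C : ℝ}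
    (hC : ∀ u, |g u| ≤ C) {ν : Measure E} [IsFiniteMeasure ν]
    (h : ∀ f : E → ℝ, BLip f → |∫ u in sq, f (P u) * g u| ≤ ∫ x, |f x| ∂ν)
    {F : Set E} (hF : IsClosed F) :
    |∫ u in sq ∩ P ⁻¹' F, g u| ≤ ν.real F := by
  set δ : ℕ → ℝ := fun n => 1 / ((n : ℝ) + 1) with hδ
  have δpos : ∀ n, 0 < δ n := fun n => by positivity
  have δlim : Tendsto δ atTop (𝓝 0) := tendsto_one_div_add_atTop_nhds_zero_nat
  set f : ℕ → E → ℝ := fun n x => (thickenedIndicator (δpos n) F x : ℝ) with hf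
  have fb : ∀ n x, |f n x| ≤ 1 := by
    intro n x
    rw [abs_of_nonneg (NNReal.coe_nonneg _)]
    exact_mod_cast thickenedIndicator_le_one (δpos n) F x
  have fl : ∀ n, BLip (f n) := by
    intro n
    refine ⟨⟨(δ n).toNNReal⁻¹, ?_⟩, 1, fb n⟩
    have h1 := lipschitzWith_thickenedIndicator (δpos n) F
    refine LipschitzWith.of_dist_le_mul fun x y => ?_
    exact h1.dist_le_mul x y
  have flim : ∀ x, Tendsto (fun n => f n x) atTop (𝓝 (F.indicator (fun _ => (1 : ℝ)) x)) := by
    intro x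
    have h1 := thickenedIndicator_tendsto_indicator_closure δpos δlim F
    rw [tendsto_pi_nhds] at h1
    have h2 := (NNReal.continuous_coe.tendsto _).comp (h1 x)
    rw [hF.closure_eq] at h2
    have h3 : ((F.indicator (fun _ => (1 : ℝ≥0)) x : ℝ≥0) : ℝ) =
        F.indicator (fun _ => (1 : ℝ)) x := by
      by_cases hx : x ∈ F <;> simp [hx]
    rw [h3] at h2
    exact h2
  have lim1 : Tendsto (fun n => ∫ u in sq, f n (P u) * g u) atTop
      (𝓝 (∫ u in sq, F.indicator (fun _ => (1 : ℝ)) (P u) * g u)) := by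
    refine tendsto_integral_of_dominated_convergence (fun _ => 1 * C) ?_ ?_ ?_ ?_
    · intro n
      have : Continuous (f n) := (fl n).1.choose_spec.continuous
      exact ((this.comp hP).measurable.mul hg).aestronglyMeasurable
    · exact integrable_const _
    · intro n
      refine Filter.Eventually.of_forall fun u => ?_
      rw [Real.norm_eq_abs, abs_mul]
      exact mul_le_mul (fb n _) (hC u) (abs_nonneg _) zero_le_one
    · exact Filter.Eventually.of_forall fun u => (flim (P u)).mul_const _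
  have lim2 : Tendsto (fun n => ∫ x, |f n x| ∂ν) atTop
      (𝓝 (∫ x, |F.indicator (fun _ => (1 : ℝ)) x| ∂ν)) := by
    refine tendsto_integral_of_dominated_convergence (fun _ => 1) ?_ ?_ ?_ ?_
    · intro n
      have : Continuous (f n) := (fl n).1.choose_spec.continuous
      exact this.abs.aestronglyMeasurable
    · exact integrable_const _
    · intro n
      refine Filter.Eventually.of_forall fun u => ?_
      rw [Real.norm_eq_abs, abs_abs]
      exact fb n _
    · exact Filter.Eventually.of_forall fun x => (flim x).abs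
  have h1 := le_of_tendsto_of_tendsto' lim1.abs lim2 fun n => h _ (fl n)
  have h2 : ∫ x, |F.indicator (fun _ => (1 : ℝ)) x| ∂ν = ν.real F := by
    have : (fun x => |F.indicator (fun _ => (1 : ℝ)) x|) = F.indicator (fun _ => (1 : ℝ)) := by
      ext x
      by_cases hx : x ∈ F <;> simp [hx]
    rw [this, integral_indicator hF.measurableSet]
    simp [Measure.real]
  have h3 : ∫ u in sq, F.indicator (fun _ => (1 : ℝ)) (P u) * g u =
      ∫ u in sq ∩ P ⁻¹' F, g u := by
    have h4 : (fun u => F.indicator (fun _ => (1 : ℝ)) (P u) * g u) =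
        (P ⁻¹' F).indicator g := by
      ext u
      by_cases hx : P u ∈ F
      · have : u ∈ P ⁻¹' F := hx
        simp [hx, this]
      · have : u ∉ P ⁻¹' F := hx
        simp [hx, this]
    rw [h4, integral_indicator (hP.measurable hF.measurableSet),
      Measure.restrict_restrict (hP.measurable hF.measurableSet), inter_comm]
  rw [h2, h3] at h1
  exact h1

/-- the values on Borel sets -/
theorem borel_le {P : R2 → E} (hP : Continuous P) {g : R2 → ℝ} (hg : Measurable g) {C : ℝ}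
    (hC : ∀ u, |g u| ≤ C) {ν : Measure E} [IsFiniteMeasure ν]
    (h : ∀ f : E → ℝ, BLip f → |∫ u in sq, f (P u) * g u| ≤ ∫ x, |f x| ∂ν)
    {A : Set E} (hA : MeasurableSet A) :
    |∫ u in sq ∩ P ⁻¹' A, g u| ≤ ν.real A := by
  have := sig_finite hP hg hC
  refine le_of_forall_pos_le_add fun ε hε => ?_
  obtain ⟨F, hFA, hF, hlt⟩ := hA.exists_isClosed_sdiff_lt (μ := sig P g)
    (measure_ne_top _ _) (ε := ENNReal.ofReal ε) (by simpa using hε)
  have hm : ∀ {B : Set E}, MeasurableSet B → MeasurableSet (sq ∩ P ⁻¹' B) := fun hB =>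
    measurableSet_sq.inter (hP.measurable hB)
  have hi : ∀ {B : Set R2}, B ⊆ sq → IntegrableOn g B volume := fun hB =>
    (integrable_of_bound hg hC).mono_set hB
  have hsplit : ∫ u in sq ∩ P ⁻¹' A, g u =
      (∫ u in sq ∩ P ⁻¹' F, g u) + ∫ u in sq ∩ P ⁻¹' (A \ F), g u := by
    rw [← setIntegral_union _ (hm (hA.diff hF.measurableSet)) (hi inter_subset_left)
      (hi inter_subset_left)]
    · congr 2
      ext u
      simp only [mem_inter_iff, mem_preimage, mem_union, Set.mem_sdiff]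
      constructor
      · rintro ⟨h1, h2⟩
        by_cases h3 : P u ∈ F
        · exact Or.inl ⟨h1, h3⟩
        · exact Or.inr ⟨h1, h2, h3⟩
      · rintro (⟨h1, h2⟩ | ⟨h1, h2, -⟩)
        · exact ⟨h1, hFA h2⟩
        · exact ⟨h1, h2⟩
    · rw [Set.disjoint_left]
      rintro u ⟨-, h1⟩ ⟨-, -, h2⟩
      exact h2 h1
  have hsmall : |∫ u in sq ∩ P ⁻¹' (A \ F), g u| ≤ ε := by
    refine abs_integral_le_integral_abs.trans ?_
    have h1 := sig_apply' hP hg hC (hA.diff hF.measurableSet)
    rw [h1] at hlt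
    exact ((ENNReal.ofReal_lt_ofReal_iff hε).1 hlt).le
  have hF' := closed_le hP hg hC h hF
  have hmono : ν.real F ≤ ν.real A := measureReal_mono hFA
  rw [hsplit]
  calc _ ≤ |∫ u in sq ∩ P ⁻¹' F, g u| + |∫ u in sq ∩ P ⁻¹' (A \ F), g u| := abs_add_le _ _
    _ ≤ ν.real A + ε := by linarith

/-- the functional bound implies domination of measures -/
theorem sig_le {P : R2 → E} (hP : Continuous P) (hinj : InjOn P sq) {g : R2 → ℝ}
    (hg : Measurable g) {C : ℝ}
    (hC : ∀ u, |g u| ≤ C) {ν : Measure E} [IsFiniteMeasure ν]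
    (h : ∀ f : E → ℝ, BLip f → |∫ u in sq, f (P u) * g u| ≤ ∫ x, |f x| ∂ν) :
    sig P g ≤ ν := by
  refine Measure.le_iff.2 fun A hA => ?_
  rw [sig_apply' hP hg hC hA]
  set S : Set R2 := sq ∩ {u | 0 ≤ g u} with hS
  have hSm : MeasurableSet S := measurableSet_sq.inter (measurableSet_le measurable_const hg)
  have hPS : MeasurableSet (P '' S) :=
    hSm.image_of_continuousOn_injOn hP.continuousOn (hinj.mono inter_subset_left)
  have h1 : sq ∩ P ⁻¹' (A ∩ P '' S) = sq ∩ P ⁻¹' A ∩ {u | 0 ≤ g u} := by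
    ext u
    simp only [mem_inter_iff, mem_preimage, mem_image, mem_ofPred_eq, hS]
    constructor
    · rintro ⟨h1, h2, v, ⟨h3, h4⟩, h5⟩
      have := hinj h3 h1 h5
      rw [this] at h4
      exact ⟨⟨h1, h2⟩, h4⟩
    · rintro ⟨⟨h1, h2⟩, h3⟩
      exact ⟨h1, h2, u, ⟨h1, h3⟩, rfl⟩
  have h2 : sq ∩ P ⁻¹' (A \ P '' S) = sq ∩ P ⁻¹' A ∩ {u | 0 ≤ g u}ᶜ := by
    ext u
    simp only [mem_inter_iff, mem_preimage, mem_image, mem_ofPred_eq, hS, Set.mem_sdiff, mem_compl_iff]
    constructor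
    · rintro ⟨h1, h2, h3⟩
      exact ⟨⟨h1, h2⟩, fun h4 => h3 ⟨u, ⟨h1, h4⟩, rfl⟩⟩
    · rintro ⟨⟨h1, h2⟩, h3⟩
      refine ⟨h1, h2, ?_⟩
      rintro ⟨v, ⟨h4, h5⟩, h6⟩
      have := hinj h4 h1 h6
      rw [this] at h5
      exact h3 h5
  have b1 := borel_le hP hg hC h (hA.inter hPS)
  have b2 := borel_le hP hg hC h (hA.diff hPS)
  rw [h1] at b1
  rw [h2] at b2
  have hm0 : MeasurableSet {u : R2 | 0 ≤ g u} := measurableSet_le measurable_const hg
  have hAm : MeasurableSet (sq ∩ P ⁻¹' A) := measurableSet_sq.inter (hP.measurable hA)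
  have hia : IntegrableOn (fun u => |g u|) (sq ∩ P ⁻¹' A) volume :=
    ((integrable_of_bound hg hC).mono_set inter_subset_left).abs
  have hsplit : ∫ u in sq ∩ P ⁻¹' A, |g u| =
      (∫ u in sq ∩ P ⁻¹' A ∩ {u | 0 ≤ g u}, |g u|) +
        ∫ u in sq ∩ P ⁻¹' A ∩ {u | 0 ≤ g u}ᶜ, |g u| := by
    rw [← setIntegral_union _ (hAm.inter hm0.compl) (hia.mono_set inter_subset_left)
      (hia.mono_set inter_subset_left), inter_union_compl]
    rw [Set.disjoint_left]
    rintro u ⟨-, h1⟩ ⟨-, h2⟩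
    exact h2 h1
  have e1 : ∫ u in sq ∩ P ⁻¹' A ∩ {u | 0 ≤ g u}, |g u| =
      ∫ u in sq ∩ P ⁻¹' A ∩ {u | 0 ≤ g u}, g u := by
    refine setIntegral_congr_fun (hAm.inter hm0) ?_
    rintro u ⟨-, hu⟩
    exact abs_of_nonneg hu
  have e2 : ∫ u in sq ∩ P ⁻¹' A ∩ {u | 0 ≤ g u}ᶜ, |g u| =
      -∫ u in sq ∩ P ⁻¹' A ∩ {u | 0 ≤ g u}ᶜ, g u := by
    rw [← integral_neg]
    refine setIntegral_congr_fun (hAm.inter hm0.compl) ?_
    rintro u ⟨-, hu⟩
    exact abs_of_neg (not_le.1 hu)
  have hfin : (∫ u in sq ∩ P ⁻¹' A, |g u|) ≤ ν.real A := by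
    rw [hsplit, e1, e2]
    have hsum : ν.real (A ∩ P '' S) + ν.real (A \ P '' S) = ν.real A :=
      measureReal_inter_add_sdiff hPS
    have := le_abs_self (∫ u in sq ∩ P ⁻¹' A ∩ {u | 0 ≤ g u}, g u)
    have := neg_le_abs (∫ u in sq ∩ P ⁻¹' A ∩ {u | 0 ≤ g u}ᶜ, g u)
    linarith
  calc ENNReal.ofReal (∫ u in sq ∩ P ⁻¹' A, |g u|) ≤ ENNReal.ofReal (ν.real A) :=
        ENNReal.ofReal_le_ofReal hfin
    _ = ν A := by rw [Measure.real, ENNReal.ofReal_toReal (measure_ne_top _ _)]

end Pool.Agent.W674.LVR
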