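import Pool.Agent.W674.LVR.Mass

/-! # The current of a metric space parametrised by the torus -/

set_option autoImplicit false

open MeasureTheory Set Filter Topology
open scoped ENNReal NNReal

namespace Pool.Agent.W674.LVR

/-- `P` is a Lipschitz `ℤ²`-periodic parametrisation of `E` separating the points of the torus -/
structure TP {E : Type} [MetricSpace E] (P : R2 → E) : Prop where
  per : Per P
  lip : ∃ L : ℝ≥0, LipschitzWith L P
  surj : Function.Surjective P
  sep : ∀ (i : Fin 2) (u v : R2), |Real.sin (Real.pi * (u i - v i))| ≤ dist (P u) (P v)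

/-- the current `(f, π) ↦ ∫_{[0,1)²} f(P u) det D(π ∘ P)(u) du` -/
noncomputable def cur {E : Type} (P : R2 → E) : Fnl 2 E :=
  fun f π => ∫ u in sq, f (P u) * J (π 0 ∘ P) (π 1 ∘ P) u

section

variable {E : Type} [MetricSpace E] {P : R2 → E}

theorem TP.continuous (h : TP P) : Continuous P := h.lip.choose_spec.continuous

theorem TP.per_comp (h : TP P) {α : Type} (f : E → α) : Per (f ∘ P) := fun m u => by
  show f (P _) = _
  rw [h.per]
  rfl

theorem abs_le_of_sin {t d : ℝ} (ht : |t| ≤ 1 / 2) (h : |Real.sin (Real.pi * t)| ≤ d) :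
    |t| ≤ d / 2 := by
  have hpi := Real.pi_pos
  have h1 := Real.mul_le_sin (x := Real.pi * |t|) (by positivity) (by nlinarith)
  have h2 : 2 / Real.pi * (Real.pi * |t|) = 2 * |t| := by field_simp
  have h3 : |Real.sin (Real.pi * t)| = Real.sin (Real.pi * |t|) := by
    rcases le_total 0 t with h | h
    · rw [abs_of_nonneg h, abs_of_nonneg]
      refine Real.sin_nonneg_of_nonneg_of_le_pi (by positivity) ?_
      rw [abs_of_nonneg h] at ht
      nlinarith
    · rw [abs_of_nonpos h, mul_neg, Real.sin_neg, abs_of_nonpos]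
      rw [abs_of_nonpos h] at ht
      have : 0 ≤ Real.sin (Real.pi * -t) :=
        Real.sin_nonneg_of_nonneg_of_le_pi (by nlinarith) (by nlinarith)
      rw [mul_neg, Real.sin_neg] at this
      linarith
  rw [h2, ← h3] at h1
  linarith

/-- the lower Lipschitz bound for points at distance at most `1/2` -/
theorem TP.lower (h : TP P) {u v : R2} (huv : ∀ i, |u i - v i| ≤ 1 / 2) :
    dist u v ≤ dist (P u) (P v) := by
  rw [dist_pi_le_iff dist_nonneg]
  intro i
  have := abs_le_of_sin (huv i) (h.sep i u v)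
  rw [Real.dist_eq]
  have := dist_nonneg (x := P u) (y := P v)
  linarith

theorem sin_pi_int {t : ℝ} (h : Real.sin (Real.pi * t) = 0) : ∃ m : ℤ, t = m := by
  rw [Real.sin_eq_zero_iff] at h
  obtain ⟨n, hn⟩ := h
  refine ⟨n, ?_⟩
  have hpi := Real.pi_pos.ne'
  have : Real.pi * t = Real.pi * n := by rw [← hn]; ring
  exact mul_left_cancel₀ hpi this

theorem TP.int_of_eq (h : TP P) {u v : R2} (huv : P u = P v) (i : Fin 2) :
    ∃ m : ℤ, u i - v i = m := by
  refine sin_pi_int ?_
  have := h.sep i u v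
  rw [huv, dist_self] at this
  exact abs_eq_zero.1 (le_antisymm this (abs_nonneg _))

/-- injectivity on sets of small diameter -/
theorem TP.eq_of_lt (h : TP P) {u v : R2} (huv : P u = P v) (hd : ∀ i, |u i - v i| < 1) :
    u = v := by
  ext i
  obtain ⟨m, hm⟩ := h.int_of_eq huv i
  have h1 := hd i
  rw [hm] at h1
  have h2 : |m| < 1 := by exact_mod_cast h1
  have h3 : m = 0 := Int.abs_lt_one_iff.1 h2
  rw [h3] at hm
  simpa [sub_eq_zero] using hm

theorem TP.injOn (h : TP P) : InjOn P sq := by
  intro u hu v hv huv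
  refine h.eq_of_lt huv fun i => ?_
  have h1 := hu i (mem_univ _)
  have h2 := hv i (mem_univ _)
  rw [abs_lt]
  constructor <;> linarith [h1.1, h1.2, h2.1, h2.2]

/-- reduction of the difference to `[-1/2, 1/2]` -/
theorem exists_shift (u v : R2) : ∃ m : Fin 2 → ℤ,
    ∀ i, |(u + fun i => (m i : ℝ)) i - v i| ≤ 1 / 2 := by
  refine ⟨fun i => -round (u i - v i), fun i => ?_⟩
  have h1 := abs_sub_round (u i - v i)
  have h2 : (u + fun i => ((-round (u i - v i) : ℤ) : ℝ)) i - v i =
      (u i - v i) - round (u i - v i) := by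
    simp only [Pi.add_apply, Int.cast_neg]
    ring
  rw [h2]
  exact h1

/-- every point close to `P v` is the image of a point close to `v` -/
theorem TP.exists_near (h : TP P) (q : E) (v : R2) : ∃ u, P u = q ∧ dist u v ≤ dist q (P v) := by
  obtain ⟨u, rfl⟩ := h.surj q
  obtain ⟨m, hm⟩ := exists_shift u v
  refine ⟨u + fun i => (m i : ℝ), h.per m u, ?_⟩
  have := h.lower hm
  rwa [h.per] at this

theorem TP.image_ball (h : TP P) (v : R2) (r : ℝ) :
    Metric.ball (P v) r ⊆ P '' Metric.ball v r := by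
  intro q hq
  obtain ⟨u, hu, hd⟩ := h.exists_near q v
  exact ⟨u, lt_of_le_of_lt hd hq, hu⟩

theorem TP.isOpen_image (h : TP P) {U : Set R2} (hU : IsOpen U) : IsOpen (P '' U) := by
  rw [Metric.isOpen_iff]
  rintro _ ⟨v, hv, rfl⟩
  obtain ⟨r, hr, hrU⟩ := Metric.isOpen_iff.1 hU v hv
  exact ⟨r, hr, (h.image_ball v r).trans (image_mono hrU)⟩

theorem TP.lip_comp (h : TP P) {f : E → ℝ} {K L : ℝ≥0} (hP : LipschitzWith L P)
    (hf : LipschitzWith K f) : LipschitzWith (K * L) (f ∘ P) := hf.comp hP

theorem TP.isCompact_univ (h : TP P) : IsCompact (univ : Set E) := by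
  have h1 : IsCompact (Icc (0 : R2) 1) := isCompact_Icc
  have h2 := h1.image h.continuous
  convert h2
  symm
  rw [eq_univ_iff_forall]
  intro q
  obtain ⟨u, rfl⟩ := h.surj q
  refine ⟨fun i => Int.fract (u i), ⟨fun i => Int.fract_nonneg _, fun i => (Int.fract_lt_one _).le⟩,
    ?_⟩
  rw [← h.per (fun i => ⌊u i⌋) (fun i => Int.fract (u i))]
  congr 1
  ext i
  simp [Int.fract_add_floor]

theorem TP.compactSpace (h : TP P) : CompactSpace E := ⟨h.isCompact_univ⟩

end

section

variable {E : Type} [MetricSpace E] [MeasurableSpace E] [BorelSpace E] {P : R2 → E}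

theorem cur_integrable (h : TP P) {f : E → ℝ} (hf : BLip f) {a b : E → ℝ} (ha : Lip a)
    (hb : Lip b) : IntegrableOn (fun u => f (P u) * J (a ∘ P) (b ∘ P) u) sq volume := by
  obtain ⟨L, hL⟩ := h.lip
  obtain ⟨⟨K, hK⟩, B, hB⟩ := hf
  obtain ⟨A1, hA1⟩ := ha
  obtain ⟨A2, hA2⟩ := hb
  refine integrable_of_bound ((hK.continuous.comp h.continuous).measurable.mul (measurable_J _ _))
      (C := B * (2 * ((A1 * L : ℝ≥0) * (A2 * L : ℝ≥0)))) ?_
  intro u
  rw [abs_mul]
  exact mul_le_mul (hB _) (J_bound (hA1.comp hL) (hA2.comp hL) u) (abs_nonneg _)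
    ((abs_nonneg _).trans (hB (P u)))

theorem cur_bound (h : TP P) {L : ℝ≥0} (hL : LipschitzWith L P) {f : E → ℝ} (hf : BLip f)
    {a b : E → ℝ} {K M : ℝ≥0} (ha : LipschitzWith K a) (hb : LipschitzWith M b) :
    |∫ u in sq, f (P u) * J (a ∘ P) (b ∘ P) u| ≤
      K * M * ∫ x, |f x| ∂((2 * (L * L) : ℝ≥0) • ((volume : Measure R2).restrict sq).map P) := by
  have hpush : IsFiniteMeasure (((volume : Measure R2).restrict sq).map P) := inferInstance
  have hle : sig P (J (a ∘ P) (b ∘ P)) ≤
      (K * M * (2 * (L * L)) : ℝ≥0) • ((volume : Measure R2).restrict sq).map P := by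
    refine Measure.le_iff.2 fun A hA => ?_
    rw [sig_apply h.continuous hA, Measure.smul_apply, Measure.map_apply h.continuous.measurable hA,
      Measure.restrict_apply (h.continuous.measurable hA), inter_comm (P ⁻¹' A)]
    have hb : ∀ u, ENNReal.ofReal |J (a ∘ P) (b ∘ P) u| ≤ (K * M * (2 * (L * L)) : ℝ≥0) := by
      intro u
      rw [ENNReal.ofReal_le_iff_le_toReal ENNReal.coe_ne_top]
      refine (J_bound (ha.comp hL) (hb.comp hL) u).trans (le_of_eq ?_)
      push_cast
      simp
      ring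
    calc ∫⁻ u in sq ∩ P ⁻¹' A, ENNReal.ofReal |J (a ∘ P) (b ∘ P) u|
        ≤ ∫⁻ u in sq ∩ P ⁻¹' A, ((K * M * (2 * (L * L)) : ℝ≥0) : ℝ≥0∞) :=
          lintegral_mono fun u => hb u
      _ = _ := by
          rw [setLIntegral_const]
          rfl
  obtain ⟨⟨K', hK'⟩, B, hB⟩ := hf
  have h1 := le_of_sig h.continuous (measurable_J _ _) (J_bound (ha.comp hL) (hb.comp hL)) hle
    hK'.continuous.measurable hB
  refine h1.trans (le_of_eq ?_)
  rw [mul_smul, integral_smul_nnreal_measure, NNReal.smul_def, smul_eq_mul]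
  push_cast
  rfl

theorem cur_boundary (h : TP P) {f : E → ℝ} {π : Fin 1 → E → ℝ} (hf : BLip f)
    (hπ : ∀ i, Lip (π i)) : boundary (cur P) f π = 0 := by
  obtain ⟨L, hL⟩ := h.lip
  obtain ⟨⟨K, hK⟩, -⟩ := hf
  obtain ⟨M, hM⟩ := hπ 0
  show ∫ u in sq, 1 * J ((Fin.cons f π : Fin 2 → E → ℝ) 0 ∘ P) ((Fin.cons f π : Fin 2 → E → ℝ) 1 ∘ P) u = 0
  have h1 : (Fin.cons f π : Fin 2 → E → ℝ) 1 = π 0 := rfl
  simp only [one_mul, h1, Fin.cons_zero]
  exact integral_J_zero (h.per_comp f) (h.per_comp _) (hK.comp hL) (hM.comp hL)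

theorem boundary_controls (h : TP P) : Controls (boundary (cur P)) (0 : Measure E) := by
  refine ⟨inferInstance, fun f π K hf hπ => ?_⟩
  rw [cur_boundary h hf fun i => ⟨K i, hπ i⟩]
  simp

theorem mass_boundary (h : TP P) : mass (boundary (cur P)) = 0 := by
  have : massMeasure (boundary (cur P)) ≤ 0 := sInf_le (boundary_controls h)
  exact le_antisymm (this univ) bot_le

theorem isCurrent_cur (h : TP P) : IsCurrent (cur P) := by
  obtain ⟨L, hL⟩ := h.lip
  have upd : ∀ (f : E → ℝ) (π : Fin 2 → E → ℝ) (a : E → ℝ),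
      cur P f (Function.update π 0 a) = ∫ u in sq, f (P u) * J (a ∘ P) (π 1 ∘ P) u := by
    intro f π a
    unfold cur
    simp
  have upd' : ∀ (f : E → ℝ) (π : Fin 2 → E → ℝ) (a : E → ℝ),
      cur P f (Function.update π 1 a) = ∫ u in sq, f (P u) * J (π 0 ∘ P) (a ∘ P) u := by
    intro f π a
    unfold cur
    simp
  refine ⟨?_, ?_, ?_, ?_, ?_, ?_, ?_⟩
  · intro f g π hf hg hπ
    unfold cur
    rw [← integral_add (cur_integrable h hf (hπ 0) (hπ 1)) (cur_integrable h hg (hπ 0) (hπ 1))]
    congr 1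
    ext u
    simp [add_mul]
  · intro c f π hf hπ
    unfold cur
    rw [← integral_const_mul]
    congr 1
    ext u
    simp [mul_assoc]
  · intro f π i a b hf hπ ha hb
    have dd : ∀ {c : E → ℝ}, Lip c → ∀ᵐ u ∂((volume : Measure R2).restrict sq),
        DifferentiableAt ℝ (c ∘ P) u := by
      rintro c ⟨K, hK⟩
      exact ae_diff (hK.comp hL)
    fin_cases i
    · show cur P f (Function.update π 0 (a + b)) = cur P f (Function.update π 0 a) +
        cur P f (Function.update π 0 b)
      rw [upd, upd, upd, ← integral_add (cur_integrable h hf ha (hπ 1))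
        (cur_integrable h hf hb (hπ 1))]
      refine integral_congr_ae ?_
      filter_upwards [dd ha, dd hb] with u h1 h2
      have : (a + b) ∘ P = fun v => (a ∘ P) v + (b ∘ P) v := rfl
      rw [this]
      unfold J
      rw [pd_add h1 h2, pd_add h1 h2]
      ring
    · show cur P f (Function.update π 1 (a + b)) = cur P f (Function.update π 1 a) +
        cur P f (Function.update π 1 b)
      rw [upd', upd', upd', ← integral_add (cur_integrable h hf (hπ 0) ha)
        (cur_integrable h hf (hπ 0) hb)]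
      refine integral_congr_ae ?_
      filter_upwards [dd ha, dd hb] with u h1 h2
      have : (a + b) ∘ P = fun v => (a ∘ P) v + (b ∘ P) v := rfl
      rw [this]
      unfold J
      rw [pd_add h1 h2, pd_add h1 h2]
      ring
  · intro c f π i a hf hπ ha
    have dd : ∀ᵐ u ∂((volume : Measure R2).restrict sq), DifferentiableAt ℝ (a ∘ P) u := by
      obtain ⟨K, hK⟩ := ha
      exact ae_diff (hK.comp hL)
    fin_cases i
    · show cur P f (Function.update π 0 (c • a)) = c * cur P f (Function.update π 0 a)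
      rw [upd, upd, ← integral_const_mul]
      refine integral_congr_ae ?_
      filter_upwards [dd] with u h1
      have : (c • a) ∘ P = fun v => c * (a ∘ P) v := rfl
      rw [this]
      unfold J
      rw [pd_smul h1, pd_smul h1]
      ring
    · show cur P f (Function.update π 1 (c • a)) = c * cur P f (Function.update π 1 a)
      rw [upd', upd', ← integral_const_mul]
      refine integral_congr_ae ?_
      filter_upwards [dd] with u h1
      have : (c • a) ∘ P = fun v => c * (a ∘ P) v := rfl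
      rw [this]
      unfold J
      rw [pd_smul h1, pd_smul h1]
      ring
  · intro f π ρ C hf hπ hρ hlim
    obtain ⟨⟨K, hK⟩, B, hB⟩ := hf
    obtain ⟨K0, h0⟩ := hπ 0
    obtain ⟨K1, h1⟩ := hπ 1
    set D : ℝ≥0 := max (C * L) (max (K0 * L) (K1 * L)) with hD
    refine tendsto_J (F := f ∘ P) (G := π 0 ∘ P) (H := π 1 ∘ P) (L := K * L) (C := D)
      (A := B.toNNReal) (Gs := fun n => ρ n 0 ∘ P) (Hs := fun n => ρ n 1 ∘ P)
      (h.per_comp _) (hK.comp hL) ?_ (h.per_comp _) ((h0.comp hL).weaken ?_) (h.per_comp _)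
      ((h1.comp hL).weaken ?_) (fun n => h.per_comp _) (fun n => ((hρ n 0).comp hL).weaken ?_)
      (fun n => h.per_comp _) (fun n => ((hρ n 1).comp hL).weaken ?_) (fun u => hlim 0 (P u))
      (fun u => hlim 1 (P u))
    · intro u
      rw [Real.coe_toNNReal _ ((abs_nonneg _).trans (hB (P 0)))]
      exact hB _
    · exact (le_max_left _ _).trans (le_max_right _ _)
    · exact (le_max_right _ _).trans (le_max_right _ _)
    · exact le_max_left _ _
    · exact le_max_left _ _
  · intro f π i hf hπ hU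
    obtain ⟨U, hU, hfU, c, hc⟩ := hU
    have key : ∀ u, f (P u) ≠ 0 → ∀ j, pd j (π i ∘ P) u = 0 := by
      intro u hu j
      have h1 : P u ∈ U := hfU hu
      have h2 : (π i ∘ P) =ᶠ[𝓝 u] fun _ => c := by
        filter_upwards [h.continuous.continuousAt.preimage_mem_nhds (hU.mem_nhds h1)] with v hv
        exact hc _ hv
      unfold pd
      rw [h2.fderiv_eq]
      simp
    have hzero : ∀ u, f (P u) * J (π 0 ∘ P) (π 1 ∘ P) u = 0 := by
      intro u
      by_cases hu : f (P u) = 0
      · rw [hu, zero_mul]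
      · have := key u hu
        unfold J
        fin_cases i
        · simp only [Fin.zero_eta] at this
          rw [this, this]
          ring
        · simp only [Fin.mk_one] at this
          rw [this, this]
          ring
    unfold cur
    simp [hzero]
  · refine ⟨(2 * (L * L) : ℝ≥0) • ((volume : Measure R2).restrict sq).map P, ?_, ?_⟩
    · infer_instance
    · intro f π K hf hπ
      rw [Fin.prod_univ_two]
      exact cur_bound h hL hf (hπ 0) (hπ 1)

end

end Pool.Agent.W674.LVR
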