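import Pool.Agent.W674.LVR.Defs

/-! # Periodic Lipschitz functions in the plane: integration by parts for the Jacobian -/

set_option autoImplicit false

open MeasureTheory Set Filter Topology
open scoped ENNReal NNReal Pointwise

namespace Pool.Agent.W674.LVR

abbrev R2 : Type := Fin 2 → ℝ

/-- the half open unit square -/
def sq : Set R2 := Set.pi univ fun _ => Ico (0 : ℝ) 1

theorem sq_eq : ZSpan.fundamentalDomain (Pi.basisFun ℝ (Fin 2)) = sq :=
  ZSpan.fundamentalDomain_pi_basisFun

theorem measurableSet_sq : MeasurableSet sq :=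
  MeasurableSet.univ_pi fun _ => measurableSet_Ico

theorem volume_sq : volume sq = 1 := by
  unfold sq
  rw [volume_pi, Measure.pi_pi]
  simp

instance : IsFiniteMeasure ((volume : Measure R2).restrict sq) :=
  ⟨by rw [Measure.restrict_apply_univ, volume_sq]; exact ENNReal.one_lt_top⟩

/-- `ℤ²`-periodic functions -/
def Per {α : Type} (g : R2 → α) : Prop :=
  ∀ (m : Fin 2 → ℤ) (u : R2), g (u + fun i => (m i : ℝ)) = g u

theorem setIntegral_shift {g : R2 → ℝ} (hg : Per g) (v : R2) :
    ∫ u in v +ᵥ sq, g u = ∫ u in sq, g u := by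
  have hD : IsAddFundamentalDomain (Submodule.span ℤ (range (Pi.basisFun ℝ (Fin 2))))
      sq volume := by
    rw [← sq_eq]
    exact ZSpan.isAddFundamentalDomain _ _
  have hinv : VAddInvariantMeasure (Submodule.span ℤ (range (Pi.basisFun ℝ (Fin 2)))) R2
      volume := ⟨fun c s _ => measure_preimage_add volume (c : R2) s⟩
  have hD2 : IsAddFundamentalDomain (Submodule.span ℤ (range (Pi.basisFun ℝ (Fin 2))))
      (v +ᵥ sq) volume := hD.vadd_of_comm v
  refine hD2.setIntegral_eq hD ?_
  rintro ⟨w, hw⟩ x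
  have key : ∃ m : Fin 2 → ℤ, w = fun i => (m i : ℝ) := by
    rw [Module.Basis.mem_span_iff_repr_mem] at hw
    choose m hm using hw
    exact ⟨m, funext fun i => by simpa using (hm i).symm⟩
  obtain ⟨m, hm⟩ := key
  have : (⟨w, hw⟩ : Submodule.span ℤ (range (Pi.basisFun ℝ (Fin 2)))) +ᵥ x = w + x := rfl
  rw [this, hm, add_comm]
  exact hg m x

theorem integral_shift {g : R2 → ℝ} (hg : Per g) (v : R2) :
    ∫ u in sq, g (u + v) = ∫ u in sq, g u := by
  have h1 : MeasurePreserving (fun u : R2 => u + v) volume volume :=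
    measurePreserving_add_right volume v
  have h2 : MeasurableEmbedding (fun u : R2 => u + v) :=
    (MeasurableEquiv.addRight v).measurableEmbedding
  have h3 := h1.setIntegral_preimage_emb h2 g (v +ᵥ sq)
  rw [setIntegral_shift hg v] at h3
  rw [← h3]
  congr 2
  ext u
  constructor
  · intro hu
    exact ⟨u, hu, add_comm v u⟩
  · rintro ⟨w, hw, h⟩
    have h' : v + w = u + v := h
    have : w + v = u + v := by rw [add_comm w v]; exact h'
    rwa [← add_right_cancel this]

/-- partial derivatives -/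
noncomputable def pd (i : Fin 2) (g : R2 → ℝ) (u : R2) : ℝ := fderiv ℝ g u (Pi.single i 1)

/-- the Jacobian of two functions -/
noncomputable def J (G H : R2 → ℝ) (u : R2) : ℝ := pd 0 G u * pd 1 H u - pd 1 G u * pd 0 H u

theorem jac_eq (g : Fin 2 → R2 → ℝ) (u : R2) : jac g u = J (g 0) (g 1) u := by
  simp [jac, Matrix.det_fin_two, J, pd]

theorem norm_single (i : Fin 2) : ‖(Pi.single i 1 : R2)‖ = 1 := by
  rw [Pi.norm_single]
  simp

/-- difference quotients -/
noncomputable def dq (c : ℝ) (v : R2) (g : R2 → ℝ) (u : R2) : ℝ := c * (g (u + c⁻¹ • v) - g u)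

theorem dq_tendsto {g : R2 → ℝ} {u : R2} (hg : DifferentiableAt ℝ g u) (v : R2) :
    Tendsto (fun n : ℕ => dq n v g u) atTop (𝓝 (fderiv ℝ g u v)) :=
  (hg.hasFDerivAt.lim_real v).comp tendsto_natCast_atTop_atTop

theorem dq_bound {g : R2 → ℝ} {L : ℝ≥0} (hg : LipschitzWith L g) (c : ℝ) {v : R2}
    (hv : ‖v‖ ≤ 1) (u : R2) : |dq c v g u| ≤ L := by
  unfold dq
  by_cases hc : c = 0
  · simp [hc]
  rw [abs_mul]
  have h1 := hg.dist_le_mul (u + c⁻¹ • v) u
  rw [Real.dist_eq, dist_eq_norm, add_sub_cancel_left, norm_smul, Real.norm_eq_abs] at h1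
  have h2 : |c| * |c⁻¹| = 1 := by rw [← abs_mul, mul_inv_cancel₀ hc, abs_one]
  calc |c| * |g (u + c⁻¹ • v) - g u| ≤ |c| * (L * (|c⁻¹| * ‖v‖)) := by gcongr
    _ = (|c| * |c⁻¹|) * (L * ‖v‖) := by ring
    _ = L * ‖v‖ := by rw [h2, one_mul]
    _ ≤ L := by nlinarith [L.2, norm_nonneg v, (L.2 : (0 : ℝ) ≤ L)]

theorem integrable_of_continuous {g : R2 → ℝ} (hg : Continuous g) :
    IntegrableOn g sq volume := by
  have h1 : IsCompact (Icc (0 : R2) 1) := isCompact_Icc
  have h2 : IntegrableOn g (Icc (0 : R2) 1) volume := hg.continuousOn.integrableOn_compact h1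
  refine h2.mono_set ?_
  intro u hu
  exact ⟨fun i => (hu i (mem_univ _)).1, fun i => (hu i (mem_univ _)).2.le⟩

theorem sum_by_parts {K H : R2 → ℝ} (hK : Per K) (hH : Per H) (cK : Continuous K)
    (cH : Continuous H) (v w : R2) :
    ∫ u in sq, (K (u + v) - K u) * (H (u + w) - H u) =
      ∫ u in sq, (K (u + -w) - K u) * (H (u + -v) - H u) := by
  have per : ∀ a b : R2, Per (fun u => K (u + a) * H (u + b)) := by
    intro a b m u
    show K (u + _ + a) * H (u + _ + b) = _
    rw [add_right_comm u _ a, add_right_comm u _ b, hK, hH]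
  have int : ∀ a b : R2, IntegrableOn (fun u => K (u + a) * H (u + b)) sq volume := by
    intro a b
    exact integrable_of_continuous (by fun_prop)
  have key : ∀ a b c : R2, ∫ u in sq, K (u + (a + c)) * H (u + (b + c)) =
      ∫ u in sq, K (u + a) * H (u + b) := by
    intro a b c
    rw [← integral_shift (per a b) c]
    congr 1
    ext u
    rw [add_comm a c, add_comm b c, add_assoc, add_assoc]
  have expand : ∀ a b : R2, ∫ u in sq, (K (u + a) - K u) * (H (u + b) - H u) =
      (∫ u in sq, K (u + a) * H (u + b)) - (∫ u in sq, K (u + a) * H (u + 0)) -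
        (∫ u in sq, K (u + 0) * H (u + b)) + ∫ u in sq, K (u + 0) * H (u + 0) := by
    intro a b
    have s1 := integral_sub (int a b) (int a 0)
    have s2 := integral_sub ((int a b).sub (int a 0)) (int 0 b)
    have s3 := integral_add (((int a b).sub (int a 0)).sub (int 0 b)) (int 0 0)
    simp only [Pi.sub_apply] at s2 s3
    rw [s1] at s2
    rw [s2] at s3
    rw [← s3]
    congr 1
    ext u
    simp only [add_zero]
    ring
  rw [expand v w, expand (-w) (-v)]
  have e1 := key (-w) (-v) (v + w)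
  have e2 := key (-w) 0 w
  have e3 := key 0 (-v) v
  rw [show -w + (v + w) = v by abel, show -v + (v + w) = w by abel] at e1
  rw [show -w + w = 0 by abel, zero_add] at e2
  rw [zero_add, show -v + v = 0 by abel] at e3
  rw [← e1, ← e2, ← e3]
  ring

theorem pd_bound {g : R2 → ℝ} {L : ℝ≥0} (hg : LipschitzWith L g) (i : Fin 2) (u : R2) :
    |pd i g u| ≤ L := by
  unfold pd
  have h1 : ‖fderiv ℝ g u‖ ≤ L := norm_fderiv_le_of_lipschitz ℝ hg
  have h2 := (fderiv ℝ g u).le_opNorm (Pi.single i 1)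
  rw [norm_single, mul_one] at h2
  exact h2.trans h1

theorem measurable_pd (i : Fin 2) (g : R2 → ℝ) : Measurable (pd i g) :=
  measurable_fderiv_apply_const ℝ g _

theorem integral_pd {K H : R2 → ℝ} {L M : ℝ≥0} (hK : Per K) (hH : Per H)
    (lK : LipschitzWith L K) (lH : LipschitzWith M H) :
    ∫ u in sq, pd 0 K u * pd 1 H u = ∫ u in sq, pd 1 K u * pd 0 H u := by
  have aeK : ∀ᵐ u ∂((volume : Measure R2).restrict sq), DifferentiableAt ℝ K u :=
    ae_restrict_of_ae lK.ae_differentiableAt
  have aeH : ∀ᵐ u ∂((volume : Measure R2).restrict sq), DifferentiableAt ℝ H u :=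
    ae_restrict_of_ae lH.ae_differentiableAt
  have cK := lK.continuous
  have cH := lH.continuous
  have lim : ∀ v w : R2, ‖v‖ ≤ 1 → ‖w‖ ≤ 1 →
      Tendsto (fun n : ℕ => ∫ u in sq, dq n v K u * dq n w H u) atTop
        (𝓝 (∫ u in sq, fderiv ℝ K u v * fderiv ℝ H u w)) := by
    intro v w hv hw
    refine tendsto_integral_of_dominated_convergence (fun _ => (L : ℝ) * M) ?_ ?_ ?_ ?_
    · intro n
      unfold dq
      exact (Continuous.aestronglyMeasurable (by fun_prop))
    · exact integrable_const _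
    · intro n
      refine Filter.Eventually.of_forall fun u => ?_
      rw [Real.norm_eq_abs, abs_mul]
      exact mul_le_mul (dq_bound lK _ hv u) (dq_bound lH _ hw u) (abs_nonneg _) L.2
    · filter_upwards [aeK, aeH] with u hu hu'
      exact (dq_tendsto hu v).mul (dq_tendsto hu' w)
  have e0 : ‖(Pi.single 0 1 : R2)‖ ≤ 1 := (norm_single 0).le
  have e1 : ‖(Pi.single 1 1 : R2)‖ ≤ 1 := (norm_single 1).le
  have l1 := lim (Pi.single 0 1) (Pi.single 1 1) e0 e1
  have l2 := lim (-Pi.single 1 1) (-Pi.single 0 1) (by rw [norm_neg]; exact e1)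
    (by rw [norm_neg]; exact e0)
  have heq : ∀ n : ℕ, ∫ u in sq, dq n (Pi.single 0 1) K u * dq n (Pi.single 1 1) H u =
      ∫ u in sq, dq n (-Pi.single 1 1) K u * dq n (-Pi.single 0 1) H u := by
    intro n
    have h := sum_by_parts hK hH cK cH ((n : ℝ)⁻¹ • Pi.single 0 1) ((n : ℝ)⁻¹ • Pi.single 1 1)
    have a1 : ∀ v w : R2, ∫ u in sq, dq n v K u * dq n w H u =
        (n : ℝ) ^ 2 * ∫ u in sq, (K (u + (n : ℝ)⁻¹ • v) - K u) * (H (u + (n : ℝ)⁻¹ • w) - H u) := by
      intro v w
      rw [← integral_const_mul]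
      congr 1
      ext u
      unfold dq
      ring
    rw [a1, a1, h, smul_neg, smul_neg]
  have l3 := l1.congr heq
  have := tendsto_nhds_unique l3 l2
  simp only [map_neg, neg_mul_neg] at this
  exact this

end Pool.Agent.W674.LVR
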