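import Pool.Agent.W674.LVR.Param

/-! # The current of the torus is integer rectifiable and has positive lower density -/

set_option autoImplicit false

open MeasureTheory Set Filter Topology
open scoped ENNReal NNReal

namespace Pool.Agent.W674.LVR

/-- the four half open subsquares -/
def qs (j : Fin 2 → Fin 2) : Set R2 :=
  Set.pi univ fun i => Ico (((j i : ℕ) : ℝ) / 2) ((((j i : ℕ) : ℝ) + 1) / 2)

theorem measurableSet_qs (j : Fin 2 → Fin 2) : MeasurableSet (qs j) :=
  MeasurableSet.univ_pi fun _ => measurableSet_Ico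

theorem qs_subset (j : Fin 2 → Fin 2) : qs j ⊆ sq := by
  intro u hu i _
  have h1 := hu i (mem_univ _)
  have h2 : ((j i : ℕ) : ℝ) ≤ 1 := by
    have : (j i : ℕ) ≤ 1 := by omega
    exact_mod_cast this
  have h3 : (0 : ℝ) ≤ ((j i : ℕ) : ℝ) := by positivity
  exact ⟨by linarith [h1.1], by linarith [h1.2]⟩

theorem iUnion_qs : ⋃ j, qs j = sq := by
  apply Subset.antisymm (iUnion_subset qs_subset)
  intro u hu
  rw [mem_iUnion]
  refine ⟨fun i => if u i < 1 / 2 then 0 else 1, fun i _ => ?_⟩
  have h1 := hu i (mem_univ _)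
  by_cases h : u i < 1 / 2
  · simp only [h, if_true]
    exact ⟨by simpa using h1.1, by simpa using h⟩
  · simp only [h, if_false]
    push Not at h
    refine ⟨by simpa using h, ?_⟩
    have := h1.2
    norm_num
    exact this

theorem qs_disjoint {j k : Fin 2 → Fin 2} (hjk : j ≠ k) : Disjoint (qs j) (qs k) := by
  rw [Set.disjoint_left]
  intro u hu hv
  apply hjk
  ext i
  have h1 := hu i (mem_univ _)
  have h2 := hv i (mem_univ _)
  have h3 : ((j i : ℕ) : ℝ) < ((k i : ℕ) : ℝ) + 1 := by linarith [h1.1, h2.2]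
  have h4 : ((k i : ℕ) : ℝ) < ((j i : ℕ) : ℝ) + 1 := by linarith [h2.1, h1.2]
  have h5 : (j i : ℕ) < (k i : ℕ) + 1 := by exact_mod_cast h3
  have h6 : (k i : ℕ) < (j i : ℕ) + 1 := by exact_mod_cast h4
  omega

theorem isBounded_qs (j : Fin 2 → Fin 2) : Bornology.IsBounded (qs j) := by
  refine Bornology.IsBounded.subset ?_ (qs_subset j)
  rw [← sq_eq]
  exact ZSpan.fundamentalDomain_isBounded _

theorem ae_interior {A : Set R2} (hA : Convex ℝ A) (hm : MeasurableSet A) :
    ∀ᵐ u ∂((volume : Measure R2).restrict A), A ∈ 𝓝 u := by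
  rw [ae_restrict_iff' hm]
  have h0 : volume (frontier A) = 0 := hA.addHaar_frontier volume
  have h1 : ∀ᵐ u ∂(volume : Measure R2), u ∉ frontier A := measure_eq_zero_iff_ae_notMem.1 h0
  filter_upwards [h1] with u hu huA
  by_contra h
  exact hu ⟨subset_closure huA, fun h2 => h (mem_interior_iff_mem_nhds.1 h2)⟩

theorem jacW_eq {A : Set R2} {u : R2} (hA : A ∈ 𝓝 u) (g : Fin 2 → R2 → ℝ) :
    jacW A g u = J (g 0) (g 1) u := by
  rw [← jac_eq]
  unfold jacW jac
  congr 1
  ext i j
  simp only [Matrix.of_apply]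
  rw [fderivWithin_of_mem_nhds hA]

variable {E : Type} [MetricSpace E] [MeasurableSpace E] [BorelSpace E] {P : R2 → E}

theorem rectifiable_cur (h : TP P) : IsIntegerRectifiable (cur P) := by
  obtain ⟨L, hL⟩ := h.lip
  refine ⟨Fin 2 → Fin 2, inferInstance, qs, fun _ => P, fun _ _ => 1, ?_, ?_, ?_, ?_, ?_⟩
  · exact fun j => ⟨measurableSet_qs j, isBounded_qs j⟩
  · intro j
    refine ⟨max L 1, fun u hu v hv => ⟨?_, ?_⟩⟩
    · refine (hL.dist_le_mul u v).trans ?_
      gcongr
      exact_mod_cast le_max_left L 1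
    · refine (h.lower (u := u) (v := v) fun i => ?_).trans ?_
      · have h1 := hu i (mem_univ _)
        have h2 := hv i (mem_univ _)
        rw [abs_le]
        constructor <;> linarith [h1.1, h1.2, h2.1, h2.2]
      · have : (1 : ℝ) ≤ (max L 1 : ℝ≥0) := by exact_mod_cast le_max_right L 1
        have h3 := dist_nonneg (x := P u) (y := P v)
        nlinarith
  · intro j k hjk
    refine Set.disjoint_left.2 ?_
    rintro _ ⟨u, hu, rfl⟩ ⟨v, hv, huv⟩
    have := h.injOn (qs_subset k hv) (qs_subset j hu) huv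
    rw [this] at hv
    exact Set.disjoint_left.1 (qs_disjoint hjk) hu hv
  · intro j
    simp only [Int.cast_one]
    exact integrableOn_const (hs := (measure_mono (qs_subset j)).trans_lt
      (by rw [volume_sq]; exact ENNReal.one_lt_top) |>.ne)
  · intro f π hf hπ
    have h1 := hasSum_integral_iUnion (f := fun u => f (P u) * J (π 0 ∘ P) (π 1 ∘ P) u)
      (μ := (volume : Measure R2)) measurableSet_qs (fun j k hjk => qs_disjoint hjk)
      (by rw [iUnion_qs]; exact cur_integrable h hf (hπ 0) (hπ 1))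
    rw [iUnion_qs] at h1
    refine HasSum.congr_fun h1 ?_
    intro j
    refine integral_congr_ae ?_
    have hconv : Convex ℝ (qs j) := convex_pi fun i _ => convex_Ico _ _
    filter_upwards [ae_interior hconv (measurableSet_qs j)] with u hu
    rw [jacW_eq hu]
    simp

/-- functions with a prescribed dependence on one torus coordinate -/
theorem exists_sin (h : TP P) (i : Fin 2) (t : ℝ) : ∃ S : E → ℝ, LipschitzWith 2 S ∧
    ∀ u, S (P u) = Real.sin (2 * Real.pi * (u i - t)) := by
  choose sec hsec using h.surj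
  have hS : ∀ u v : R2, |Real.sin (2 * Real.pi * (u i - t)) - Real.sin (2 * Real.pi * (v i - t))| ≤
      2 * dist (P u) (P v) := by
    intro u v
    rw [Real.sin_sub_sin]
    have e1 : (2 * Real.pi * (u i - t) - 2 * Real.pi * (v i - t)) / 2 =
        Real.pi * (u i - v i) := by ring
    rw [e1, abs_mul, abs_mul, abs_two]
    have h1 := h.sep i u v
    have h2 := Real.abs_cos_le_one ((2 * Real.pi * (u i - t) + 2 * Real.pi * (v i - t)) / 2)
    have h3 := abs_nonneg (Real.sin (Real.pi * (u i - v i)))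
    have h4 := abs_nonneg
      (Real.cos ((2 * Real.pi * (u i - t) + 2 * Real.pi * (v i - t)) / 2))
    calc _ ≤ 2 * |Real.sin (Real.pi * (u i - v i))| * 1 := by gcongr
      _ ≤ _ := by linarith
  refine ⟨fun q => Real.sin (2 * Real.pi * (sec q i - t)), ?_, ?_⟩
  · refine LipschitzWith.of_dist_le_mul fun p q => ?_
    have := hS (sec p) (sec q)
    rw [hsec, hsec] at this
    exact this
  · intro u
    have := hS (sec (P u)) u
    rw [hsec, dist_self, mul_zero] at this
    exact sub_eq_zero.1 (abs_eq_zero.1 (le_antisymm this (abs_nonneg _)))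

theorem pd_sin (i j : Fin 2) (t : ℝ) (u : R2) :
    pd j (fun u : R2 => Real.sin (2 * Real.pi * (u i - t))) u =
      Real.cos (2 * Real.pi * (u i - t)) * (2 * Real.pi * (Pi.single j (1 : ℝ) : R2) i) := by
  unfold pd
  have h1 : HasFDerivAt (fun u : R2 => u i) (ContinuousLinearMap.proj (R := ℝ) i) u :=
    (ContinuousLinearMap.proj (R := ℝ) (φ := fun _ : Fin 2 => ℝ) i).hasFDerivAt
  have h2 := (((h1.sub_const t).const_mul (2 * Real.pi)).sin)
  rw [h2.fderiv]
  simp [mul_assoc]

theorem density_cur (h : TP P) (x : E) : 0 < lowerDensity (cur P) x := by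
  obtain ⟨L, hL⟩ := h.lip
  -- a preimage in the unit square
  obtain ⟨v, hv, rfl⟩ : ∃ v ∈ sq, P v = x := by
    obtain ⟨u, rfl⟩ := h.surj x
    refine ⟨fun i => Int.fract (u i), fun i _ => ⟨Int.fract_nonneg _, Int.fract_lt_one _⟩, ?_⟩
    rw [← h.per (fun i => ⌊u i⌋) (fun i => Int.fract (u i))]
    congr 1
    ext i
    simp [Int.fract_add_floor]
  obtain ⟨S0, lS0, hS0⟩ := exists_sin h 0 (v 0)
  obtain ⟨S1, lS1, hS1⟩ := exists_sin h 1 (v 1)
  set g : R2 → ℝ := J (S0 ∘ P) (S1 ∘ P) with hg
  have hgb := J_bound (lS0.comp hL) (lS1.comp hL)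
  have hgm : Measurable g := measurable_J _ _
  have hgval : ∀ u, g u = Real.cos (2 * Real.pi * (u 0 - v 0)) * (2 * Real.pi) *
      (Real.cos (2 * Real.pi * (u 1 - v 1)) * (2 * Real.pi)) := by
    intro u
    have e0 : S0 ∘ P = fun u : R2 => Real.sin (2 * Real.pi * (u 0 - v 0)) := funext hS0
    have e1 : S1 ∘ P = fun u : R2 => Real.sin (2 * Real.pi * (u 1 - v 1)) := funext hS1
    rw [hg, e0, e1]
    unfold J
    rw [pd_sin, pd_sin, pd_sin, pd_sin]
    simp
  have hgone : ∀ u, dist u v ≤ 1 / 8 → 1 ≤ |g u| := by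
    intro u hu
    rw [dist_pi_le_iff (by norm_num)] at hu
    have hcos : ∀ i, 1 / 2 ≤ Real.cos (2 * Real.pi * (u i - v i)) := by
      intro i
      have h1 := hu i
      rw [Real.dist_eq] at h1
      have h2 : |2 * Real.pi * (u i - v i)| ≤ Real.pi / 3 := by
        rw [abs_mul, abs_of_pos (by positivity)]
        nlinarith [Real.pi_pos]
      rw [← Real.cos_abs, ← Real.cos_pi_div_three]
      exact Real.cos_le_cos_of_nonneg_of_le_pi (abs_nonneg _)
        (by linarith [Real.pi_pos]) h2
    rw [hgval]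
    have hpi : 3 < Real.pi := Real.pi_gt_three
    have a0 : 3 ≤ Real.cos (2 * Real.pi * (u 0 - v 0)) * (2 * Real.pi) := by
      nlinarith [hcos 0]
    have a1 : 3 ≤ Real.cos (2 * Real.pi * (u 1 - v 1)) * (2 * Real.pi) := by
      nlinarith [hcos 1]
    rw [abs_of_nonneg (by nlinarith)]
    nlinarith
  -- the mass measure is bounded below
  have hlow : (4⁻¹ : ℝ≥0) • sig P g ≤ massMeasure (cur P) := by
    refine le_sInf ?_
    rintro ν ⟨hfin, hν⟩
    have h4 : sig P g ≤ (4 : ℝ≥0) • ν := by
      refine sig_le h.continuous h.injOn hgm hgb ?_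
      intro f hf
      have := hν f ![S0, S1] ![2, 2] hf (by
        intro i
        fin_cases i
        · exact lS0
        · exact lS1)
      rw [integral_smul_nnreal_measure, NNReal.smul_def, smul_eq_mul]
      simp only [Fin.prod_univ_two, Matrix.cons_val_zero, Matrix.cons_val_one] at this
      refine le_trans this (le_of_eq ?_)
      norm_num
    calc (4⁻¹ : ℝ≥0) • sig P g ≤ (4⁻¹ : ℝ≥0) • ((4 : ℝ≥0) • ν) := by gcongr
      _ = ν := by
        rw [smul_smul]
        norm_num
  -- the lower bound on small balls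
  set c : ℝ := 1 / (L + 1) with hc
  have hcpos : 0 < c := by positivity
  have hball : ∀ r : ℝ, 0 < r → c * r ≤ 1 / 8 →
      ENNReal.ofReal ((c * r) ^ 2) ≤ sig P g (Metric.closedBall (P v) r) := by
    intro r hr hr8
    set ρ := c * r with hρ
    have hρpos : 0 < ρ := by positivity
    rw [sig_apply h.continuous Metric.isClosed_closedBall.measurableSet]
    set B : Set R2 := Set.pi univ fun i => Ico (if v i < 1 / 2 then v i else v i - ρ)
      ((if v i < 1 / 2 then v i else v i - ρ) + ρ) with hB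
    have hBd : ∀ u ∈ B, dist u v ≤ ρ := by
      intro u hu
      rw [dist_pi_le_iff hρpos.le]
      intro i
      have h1 : u i ∈ Ico (if v i < 1 / 2 then v i else v i - ρ)
        ((if v i < 1 / 2 then v i else v i - ρ) + ρ) := hu i (mem_univ _)
      rw [Real.dist_eq, abs_le]
      split_ifs at h1 <;> constructor <;> linarith [h1.1, h1.2]
    have hBsq : B ⊆ sq := by
      intro u hu i _
      have h1 : u i ∈ Ico (if v i < 1 / 2 then v i else v i - ρ)
        ((if v i < 1 / 2 then v i else v i - ρ) + ρ) := hu i (mem_univ _)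
      have h2 : v i ∈ Ico (0 : ℝ) 1 := hv i (mem_univ _)
      show u i ∈ Ico (0 : ℝ) 1
      split_ifs at h1 with h3
      · exact ⟨by linarith [h1.1, h2.1], by linarith [h1.2]⟩
      · push Not at h3
        exact ⟨by linarith [h1.1], by linarith [h1.2, h2.2]⟩
    have hBsub : B ⊆ sq ∩ P ⁻¹' Metric.closedBall (P v) r := by
      intro u hu
      refine ⟨hBsq hu, ?_⟩
      rw [mem_preimage, Metric.mem_closedBall]
      refine (hL.dist_le_mul u v).trans ?_
      calc (L : ℝ) * dist u v ≤ L * ρ := by gcongr; exact hBd u hu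
        _ ≤ (L + 1) * ρ := by nlinarith
        _ = r := by rw [hρ, hc]; field_simp
    have hvol : volume B = ENNReal.ofReal (ρ ^ 2) := by
      rw [hB, volume_pi, Measure.pi_pi]
      simp only [Real.volume_Ico, add_sub_cancel_left, Finset.prod_const, Finset.card_univ,
        Fintype.card_fin]
      rw [ENNReal.ofReal_pow hρpos.le]
    have hBm : MeasurableSet B := MeasurableSet.univ_pi fun _ => measurableSet_Ico
    calc ENNReal.ofReal (ρ ^ 2) = ∫⁻ u in B, 1 := by rw [setLIntegral_one, hvol]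
      _ ≤ ∫⁻ u in B, ENNReal.ofReal |g u| := by
        refine setLIntegral_mono' hBm fun u hu => ?_
        rw [← ENNReal.ofReal_one]
        exact ENNReal.ofReal_le_ofReal (hgone u ((hBd u hu).trans hr8))
      _ ≤ _ := lintegral_mono_set hBsub
  have hkey : ∀ᶠ r : ℝ in 𝓝[>] 0, ((4⁻¹ : ℝ≥0) : ℝ≥0∞) * ENNReal.ofReal (c ^ 2) ≤
      massMeasure (cur P) (Metric.closedBall (P v) r) / ENNReal.ofReal (r ^ 2) := by
    have h1 : ∀ᶠ r : ℝ in 𝓝[>] 0, c * r ≤ 1 / 8 := by
      have : Tendsto (fun r : ℝ => c * r) (𝓝[>] 0) (𝓝 (c * 0)) :=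
        (tendsto_nhdsWithin_of_tendsto_nhds (tendsto_id.const_mul c))
      rw [mul_zero] at this
      filter_upwards [this.eventually (gt_mem_nhds (show (0 : ℝ) < 1 / 8 by norm_num))] with r hr
      exact hr.le
    filter_upwards [h1, self_mem_nhdsWithin] with r hr hr0
    have hr0' : 0 < r := hr0
    have h2 := hball r hr0' hr
    have h3 := hlow (Metric.closedBall (P v) r)
    rw [Measure.smul_apply] at h3
    rw [ENNReal.le_div_iff_mul_le (Or.inl (by simpa using hr0'.ne'))
      (Or.inl ENNReal.ofReal_ne_top)]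
    refine le_trans ?_ h3
    rw [mul_assoc, ← ENNReal.ofReal_mul (by positivity), ← mul_pow]
    have : (4⁻¹ : ℝ≥0) • sig P g (Metric.closedBall (P v) r) =
        ((4⁻¹ : ℝ≥0) : ℝ≥0∞) * sig P g (Metric.closedBall (P v) r) := rfl
    rw [this]
    gcongr
  refine lt_of_lt_of_le ?_ (le_liminf_of_le (by isBoundedDefault) hkey)
  have : 0 < c ^ 2 := by positivity
  simpa using this

theorem isIntegral_cur (h : TP P) : IsIntegral (cur P) :=
  ⟨isCurrent_cur h, rectifiable_cur h, 0, boundary_controls h⟩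

theorem isIntegralCurrentSpace_cur (h : TP P) : IsIntegralCurrentSpace E (cur P) := by
  refine ⟨?_, isIntegral_cur h, density_cur h⟩
  have := h.compactSpace
  infer_instance

end Pool.Agent.W674.LVR
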